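import Pool.Agent.Lib.MP_c9b009_ag.Spec

section
/-!
# MP_c9b009_ag, module BAD: the countable set of bad points
-/
set_option autoImplicit false

namespace Pool.Agent.Lib.MPc9b009

namespace BADM

/-- the zeros of a nonzero quadratic form -/
theorem countable_zeros {q : V} (hq : q ≠ 0) : {a : Option ℂ | ev q (pt a) = 0}.Countable := by
  classical
  let p : Polynomial ℂ := Polynomial.C (q 0) + Polynomial.C (q 1) * Polynomial.X +
    Polynomial.C (q 2) * Polynomial.X ^ 2
  have hc : ∀ k, p.coeff k = (if k = 0 then q 0 else 0) + (if k = 1 then q 1 else 0) +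
      (if k = 2 then q 2 else 0) := by
    intro k
    simp only [p, Polynomial.coeff_add, Polynomial.coeff_C, Polynomial.coeff_C_mul,
      Polynomial.coeff_X, Polynomial.coeff_X_pow, mul_ite, mul_one, mul_zero, eq_comm (a := 1)]
  have hp : p ≠ 0 := by
    intro h0
    apply hq
    ext t
    fin_cases t
    · have := hc 0
      rw [h0] at this
      simpa using this.symm
    · have := hc 1
      rw [h0] at this
      simpa using this.symm
    · have := hc 2
      rw [h0] at this
      simpa using this.symm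
  have h1 : {x : ℂ | p.eval x = 0}.Finite := by
    refine (p.roots.toFinset.finite_toSet).subset fun x hx => ?_
    rw [Finset.mem_coe, Multiset.mem_toFinset, Polynomial.mem_roots hp]
    exact hx
  have h2 : {a : Option ℂ | ev q (pt a) = 0} ⊆ {none} ∪ some '' {x : ℂ | p.eval x = 0} := by
    rintro (_ | x) hx
    · exact Or.inl rfl
    · refine Or.inr ⟨x, ?_, rfl⟩
      have h3 : ev q (pt (some x)) = 0 := hx
      rw [ev_pt_some] at h3
      simpa [p] using h3
  exact ((Set.countable_singleton _).union (h1.countable.image _)).mono h2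

variable {ι : Type} (P : PS ι)

/-- the first coordinates of the nondegenerate zeros, and infinity -/
def B₀ : Set (Option ℂ) :=
  {none} ∪ ⋃ (i : ι) (j : ι) (l : ι), (fun t : ℂ × ℂ × ℂ => some t.1) ''
    {t : ℂ × ℂ × ℂ | P.F i j (pt (some t.1)) (pt (some t.2.1)) = 0 ∧
      P.F i l (pt (some t.1)) (pt (some t.2.2)) = 0 ∧
      P.F j l (pt (some t.2.1)) (pt (some t.2.2)) = 0 ∧ P.jd i j l t.1 t.2.1 t.2.2 ≠ 0}

/-- closing up under the roots -/
def Bs : ℕ → Set (Option ℂ)
  | 0 => B₀ P
  | n + 1 => Bs n ∪ ⋃ (i : ι) (k : ι), ⋃ b ∈ Bs n,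
      {a | P.q i k (pt b) ≠ 0 ∧ ev (P.q i k (pt b)) (pt a) = 0}

theorem countable_Bs [Countable ι] (hN : SpecNDZ) (n : ℕ) : (Bs P n).Countable := by
  induction n with
  | zero =>
    refine (Set.countable_singleton _).union ?_
    refine Set.countable_iUnion fun i => Set.countable_iUnion fun j => Set.countable_iUnion fun l =>
      ?_
    exact (hN P i j l).image _
  | succ n ih =>
    refine ih.union ?_
    refine Set.countable_iUnion fun i => Set.countable_iUnion fun k => ih.biUnion fun b _ => ?_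
    by_cases hq : P.q i k (pt b) = 0
    · have : {a | P.q i k (pt b) ≠ 0 ∧ ev (P.q i k (pt b)) (pt a) = 0} = ∅ := by
        ext a
        simp [hq]
      rw [this]
      exact Set.countable_empty
    · exact (countable_zeros hq).mono fun a ha => ha.2

end BADM

open BADM in
theorem specBAD (hN : SpecNDZ) : SpecBAD := by
  intro ι _ P
  refine ⟨⋃ n, Bs P n, Set.countable_iUnion fun n => countable_Bs P hN n, ?_, ?_, ?_⟩
  · exact Set.mem_iUnion.2 ⟨0, Or.inl rfl⟩
  · intro i k b a hb hq ha
    obtain ⟨n, hn⟩ := Set.mem_iUnion.1 hb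
    refine Set.mem_iUnion.2 ⟨n + 1, Or.inr ?_⟩
    simp only [Set.mem_iUnion]
    exact ⟨i, k, b, hn, hq, ha⟩
  · intro i j l x y z h1 h2 h3 h4
    refine Set.mem_iUnion.2 ⟨0, Or.inr ?_⟩
    simp only [Set.mem_iUnion]
    exact ⟨i, j, l, (x, y, z), ⟨h1, h2, h3, h4⟩, rfl⟩

end Pool.Agent.Lib.MPc9b009
end

section
/-!
# MP_c9b009_ag: CR
-/
namespace Pool.Agent.Lib.MPc9b009

namespace CRM

/-- a quadratic form has a zero on the projective line -/
lemma exists_zero (q : V) : ∃ a : Option ℂ, ev q (pt a) = 0 := by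
  by_cases h2 : q 2 = 0
  · exact ⟨none, by rw [ev_pt_none, h2]⟩
  · obtain ⟨s, hs⟩ := IsAlgClosed.exists_pow_nat_eq (q 1 ^ 2 - 4 * q 2 * q 0) (n := 2) (by norm_num)
    refine ⟨some ((-q 1 + s) / (2 * q 2)), ?_⟩
    rw [ev_pt_some]
    field_simp
    linear_combination hs

/-- independence in terms of minors -/
lemma pair_ne {p q : V} (h : LinearIndependent ℂ ![p, q]) : br p q ≠ 0 := by
  intro h0
  have e0 : p 1 * q 0 - p 0 * q 1 = 0 := by rw [← br_apply_zero, h0]; rfl
  have e1 : 2 * (p 2 * q 0 - p 0 * q 2) = 0 := by rw [← br_apply_one, h0]; rfl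
  have e2 : p 2 * q 1 - p 1 * q 2 = 0 := by rw [← br_apply_two, h0]; rfl
  have e1' : p 2 * q 0 - p 0 * q 2 = 0 := by linear_combination (1 / 2 : ℂ) * e1
  rw [LinearIndependent.pair_iff] at h
  have hq : q ≠ 0 := by
    rintro rfl
    have := h 0 1 (by simp)
    simp at this
  have : ∀ t, q t = 0 := by
    intro t
    have := (h (q t) (-(p t)) (by
      ext s
      simp only [Pi.add_apply, Pi.smul_apply, smul_eq_mul, Pi.zero_apply]
      fin_cases t <;> fin_cases s <;> simp <;>
        first
        | ring1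
        | (linear_combination e0)
        | (linear_combination (-1 : ℂ) * e0)
        | (linear_combination e1')
        | (linear_combination (-1 : ℂ) * e1')
        | (linear_combination e2)
        | (linear_combination (-1 : ℂ) * e2))).1
    exact this
  exact hq (funext this)

/-- the common zero of two independent forms whose bracket is in their span -/
lemma common {p q : V} {α β : ℂ} (h : LinearIndependent ℂ ![p, q])
    (hb : br p q = α • p + β • q) : ∃ a : Option ℂ, ev p (pt a) = 0 ∧ ev q (pt a) = 0 := by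
  have hr := pair_ne h
  set r0 := p 1 * q 0 - p 0 * q 1 with hr0
  set s := p 2 * q 0 - p 0 * q 2 with hs
  set r2 := p 2 * q 1 - p 1 * q 2 with hr2
  have b0 : r0 = α * p 0 + β * q 0 := by
    have := congrFun hb 0
    rw [br_apply_zero] at this
    simpa using this
  have b1 : 2 * s = α * p 1 + β * q 1 := by
    have := congrFun hb 1
    rw [br_apply_one] at this
    simpa using this
  have b2 : r2 = α * p 2 + β * q 2 := by
    have := congrFun hb 2
    rw [br_apply_two] at this
    simpa using this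
  have res : s ^ 2 = r0 * r2 := by
    -- κ(r, r) = α κ(r, p) + β κ(r, q) = 0
    have : 2 * s * (2 * s) - 2 * r0 * r2 - 2 * r2 * r0 = 0 := by
      calc 2 * s * (2 * s) - 2 * r0 * r2 - 2 * r2 * r0
          = 2 * s * (α * p 1 + β * q 1) - 2 * r0 * (α * p 2 + β * q 2)
            - 2 * r2 * (α * p 0 + β * q 0) := by rw [← b0, ← b1, ← b2]
        _ = 0 := by rw [hr0, hs, hr2]; ring
    linear_combination (1 / 4 : ℂ) * this
  have dp : p 0 * r2 - p 1 * s + p 2 * r0 = 0 := by rw [hr0, hs, hr2]; ring
  have dq : q 0 * r2 - q 1 * s + q 2 * r0 = 0 := by rw [hr0, hs, hr2]; ring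
  by_cases h2 : r2 = 0
  · have hs0 : s = 0 := by
      rw [h2, mul_zero] at res
      exact pow_eq_zero_iff (two_ne_zero) |>.mp res
    have hr00 : r0 ≠ 0 := by
      intro h0
      apply hr
      ext t
      fin_cases t
      · simp only [Fin.zero_eta, br_apply_zero, Pi.zero_apply]; exact h0
      · simp only [Fin.mk_one, br_apply_one, Pi.zero_apply]; rw [← hs, hs0, mul_zero]
      · simp only [Fin.reduceFinMk, br_apply_two, Pi.zero_apply]; exact h2
    refine ⟨none, ?_, ?_⟩
    · rw [ev_pt_none]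
      rw [h2, hs0] at dp
      simpa [hr00] using dp
    · rw [ev_pt_none]
      rw [h2, hs0] at dq
      simpa [hr00] using dq
  · refine ⟨some (-s / r2), ?_, ?_⟩
    · rw [ev_pt_some]
      field_simp
      linear_combination p 2 * res + r2 * dp
    · rw [ev_pt_some]
      field_simp
      linear_combination q 2 * res + r2 * dq

end CRM

open CRM

theorem specCR : SpecCR := by
  intro κ q hbr hdep
  by_cases hpair : ∃ i j, LinearIndependent ℂ ![q i, q j]
  · obtain ⟨i, j, hij⟩ := hpair
    obtain ⟨α, β, hb⟩ := hbr i j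
    obtain ⟨a, h1, h2⟩ := common hij hb
    refine ⟨a, fun l => ?_⟩
    have hd := hdep i j l
    rw [Fintype.not_linearIndependent_iff] at hd
    obtain ⟨g, hg, t, ht⟩ := hd
    rw [Fin.sum_univ_three] at hg
    simp only [Matrix.cons_val_zero, Matrix.cons_val_one, Matrix.cons_val] at hg
    have hg2 : g 2 ≠ 0 := by
      intro h0
      rw [h0, zero_smul, add_zero] at hg
      rw [LinearIndependent.pair_iff] at hij
      have := hij _ _ hg
      apply ht
      fin_cases t
      · exact this.1
      · exact this.2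
      · exact h0
    have hev := congrArg (fun x => ev x (pt a)) hg
    simp only [ev_add, ev_smul, h1, h2, ev_zero, mul_zero, zero_add] at hev
    simpa [hg2] using hev
  · push Not at hpair
    by_cases hz : ∃ i, q i ≠ 0
    · obtain ⟨i, hi⟩ := hz
      obtain ⟨a, ha⟩ := exists_zero (q i)
      refine ⟨a, fun j => ?_⟩
      have hd := hpair i j
      rw [LinearIndependent.pair_iff] at hd
      push Not at hd
      obtain ⟨s, t, hst, hne⟩ := hd
      have ht : t ≠ 0 := by
        rintro rfl
        rw [zero_smul, add_zero] at hst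
        have hs : s ≠ 0 := fun h => hne h rfl
        exact hi ((smul_eq_zero.mp hst).resolve_left hs)
      have hev := congrArg (fun x => ev x (pt a)) hst
      simp only [ev_add, ev_smul, ha, ev_zero, mul_zero, zero_add] at hev
      simpa [ht] using hev
    · push Not at hz
      exact ⟨none, fun j => by rw [hz j, ev_zero]⟩

end Pool.Agent.Lib.MPc9b009
end

section
/-!
# MP_c9b009_ag: points with coordinates outside a countable set are dense
-/
namespace Pool.Agent.Lib.MPc9b009

namespace DENM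

lemma dense_one (B : Set (Option ℂ)) (hB : B.Countable) :
    Dense {w : W | ∃ t x : ℂ, t ≠ 0 ∧ some x ∉ B ∧ w = t • pt (some x)} := by
  set A : Set W := {w : W | ∃ t x : ℂ, t ≠ 0 ∧ some x ∉ B ∧ w = t • pt (some x)} with hA
  have hC : {x : ℂ | some x ∈ B}.Countable := by
    have : {x : ℂ | some x ∈ B} = some ⁻¹' B := rfl
    rw [this]
    exact hB.preimage (Option.some_injective ℂ)
  have hd : Dense ({x : ℂ | some x ∈ B}ᶜ : Set ℂ) := hC.dense_compl ℂ
  -- vectors with nonzero first coordinate are in the closure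
  have h1 : ∀ w : W, w 0 ≠ 0 → w ∈ closure A := by
    intro w hw
    have hc : Continuous (fun x : ℂ => w 0 • pt (some x)) := by
      simp only [pt_some]
      refine continuous_pi fun k => ?_
      fin_cases k
      · simp only [Fin.zero_eta, Pi.smul_apply, Matrix.cons_val_zero, smul_eq_mul, mul_one]
        exact continuous_const
      · simp only [Fin.mk_one, Pi.smul_apply, Matrix.cons_val_one, Matrix.cons_val_fin_one,
          smul_eq_mul]
        exact continuous_const.mul continuous_id
    have hw' : w = (fun x : ℂ => w 0 • pt (some x)) (w 1 / w 0) := by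
      ext k
      fin_cases k
      · simp
      · simp only [Fin.mk_one, pt_some, Pi.smul_apply, Matrix.cons_val_one,
          Matrix.cons_val_fin_one, smul_eq_mul]
        field_simp
    have hcl : (fun x : ℂ => w 0 • pt (some x)) (w 1 / w 0) ∈ closure A :=
      map_mem_closure (f := fun x : ℂ => w 0 • pt (some x)) hc (hd (w 1 / w 0))
        fun x hx => ⟨w 0, x, hw, hx, rfl⟩
    rwa [← hw'] at hcl
  have h2 : ∀ w : W, w ∈ closure A := by
    intro w
    have hc : Continuous (fun t : ℂ => Function.update w 0 t) := continuous_const.update 0 continuous_id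
    have hd0 : Dense ({(0 : ℂ)}ᶜ : Set ℂ) := dense_compl_singleton 0
    have hw' : w = (fun t : ℂ => Function.update w 0 t) (w 0) := by simp
    have hcl : (fun t : ℂ => Function.update w 0 t) (w 0) ∈ closure (closure A) :=
      map_mem_closure (f := fun t : ℂ => Function.update w 0 t) hc (hd0 (w 0))
        fun t ht => h1 _ (by simpa using ht)
    rwa [← hw', closure_closure] at hcl
  exact h2

end DENM

theorem specDEN : SpecDEN := by
  intro ι _ B hB
  have h := dense_pi (Set.univ : Set ι)
    (s := fun _ : ι => {w : W | ∃ t x : ℂ, t ≠ 0 ∧ some x ∉ B ∧ w = t • pt (some x)})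
    (fun i _ => DENM.dense_one B hB)
  convert h using 1
  ext y
  simp

end Pool.Agent.Lib.MPc9b009
end

section
/-!
# MP_c9b009_ag: DET
-/
namespace Pool.Agent.Lib.MPc9b009

namespace DETM

/-- the 3x3 determinant -/
def det3 (x y z : V) : ℂ :=
  x 0 * (y 1 * z 2 - y 2 * z 1) - x 1 * (y 0 * z 2 - y 2 * z 0) + x 2 * (y 0 * z 1 - y 1 * z 0)

lemma det3_ne {p q r : V} (h : LinearIndependent ℂ ![p, q, r]) : det3 p q r ≠ 0 := by
  have h1 : LinearIndependent ℂ (Matrix.of ![p, q, r]).row := h
  rw [Matrix.linearIndependent_rows_iff_isUnit, Matrix.isUnit_iff_isUnit_det] at h1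
  have h2 := h1.ne_zero
  rw [Matrix.det_fin_three] at h2
  intro h3
  apply h2
  simp only [det3] at h3
  simp only [Matrix.of_apply, Matrix.cons_val_zero, Matrix.cons_val_one, Matrix.cons_val]
  linear_combination h3

lemma det3_br (p q r : V) : det3 (br p q) (br p r) (br q r) = -2 * det3 p q r ^ 2 := by
  simp only [det3, br_apply_zero, br_apply_one, br_apply_two]
  ring

end DETM

open DETM

theorem specDET : SpecDET := by
  intro p q r a1 b1 a2 b2 a3 b3 h1 h2 h3 hli h0
  have hD := det3_ne hli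
  have key := det3_br p q r
  rw [h1, h2, h3] at key
  have key2 : det3 (a1 • p + b1 • q) (a2 • p + b2 • r) (a3 • q + b3 • r) =
      -(a1 * a3 * b2 + a2 * b1 * b3) * det3 p q r := by
    simp only [det3, Pi.add_apply, Pi.smul_apply, smul_eq_mul]
    ring
  rw [key2, h0] at key
  have : det3 p q r ^ 2 = 0 := by linear_combination (1 / 2 : ℂ) * key
  exact hD (pow_eq_zero_iff (two_ne_zero) |>.mp this)

end Pool.Agent.Lib.MPc9b009
end

section
/-!
# MP_c9b009_ag, module EXT: extension of a zero of the coordinates in `J` by one coordinate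
-/
namespace Pool.Agent.Lib.MPc9b009

theorem specEXT (hCR : SpecCR) (hDET : SpecDET) (hREL : SpecREL) : SpecEXT := by
  intro ι P B hB J x hx hF k hk
  have hik : ∀ i ∈ J, i ≠ k := fun i hi h => hk (h ▸ hi)
  have hrel : ∀ i ∈ J, ∀ j ∈ J, i ≠ j →
      br (P.q i k (pt (some (x i)))) (P.q j k (pt (some (x j))))
        = P.Dv j i (x j) (x i) • P.q i k (pt (some (x i)))
          + (- P.Dv i j (x i) (x j)) • P.q j k (pt (some (x j))) := by
    intro i hi j hj hij
    rw [hREL P i j k hij (hik i hi) (hik j hj) (x i) (x j) (hF i hi j hj hij), neg_smul,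
      sub_eq_add_neg]
  obtain ⟨a, ha⟩ := hCR J (fun i => P.q i k (pt (some (x i)))) (by
    intro i j
    by_cases hij : i = j
    · subst hij
      exact ⟨0, 0, by rw [br_self]; simp⟩
    · exact ⟨_, _, hrel i i.2 j j.2 (fun h => hij (Subtype.ext h))⟩) (by
    intro i j l hli
    have hinj := hli.injective
    have hij : (i : ι) ≠ j := by
      intro h
      have h' : i = j := Subtype.ext h
      subst h'
      have := @hinj 0 1 (by simp)
      exact absurd this (by decide)
    have hil : (i : ι) ≠ l := by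
      intro h
      have h' : i = l := Subtype.ext h
      subst h'
      have := @hinj 0 2 (by simp)
      exact absurd this (by decide)
    have hjl : (j : ι) ≠ l := by
      intro h
      have h' : j = l := Subtype.ext h
      subst h'
      have := @hinj 1 2 (by simp)
      exact absurd this (by decide)
    have hd := hDET _ _ _ _ _ _ _ _ _ (hrel i i.2 j j.2 hij) (hrel i i.2 l l.2 hil)
      (hrel j j.2 l l.2 hjl) hli
    refine hx i i.2 (hB.2.2.2 i j l (x i) (x j) (x l) (hF i i.2 j j.2 hij) (hF i i.2 l l.2 hil)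
      (hF j j.2 l l.2 hjl) ?_)
    intro h0
    apply hd
    unfold PS.jd at h0
    linear_combination h0)
  exact ⟨a, fun i hi => ha ⟨i, hi⟩⟩

end Pool.Agent.Lib.MPc9b009
end

section
/-!
# MP_c9b009_ag: module IND
-/
namespace Pool.Agent.Lib.MPc9b009

namespace INDM

/-- the coordinates in `I` Poisson commute -/
theorem base (hBAD : SpecBAD) (hZER : SpecZER) (hTOP : SpecTOP) (hDEN : SpecDEN)
    {ι : Type} [Fintype ι] [DecidableEq ι] (P : PS ι) (I : Finset ι)
    (h : ∀ i ∈ I, ∀ j ∈ I, i ≠ j → ∀ u v, P.F i j u v = 0) (s : ℕ)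
    (y : ι → W) (hy : ∀ i, y i ≠ 0) :
    ∃ u : ι → W, (∀ i, u i ≠ 0) ∧ (∀ i ∈ I, u i = y i) ∧ (P.M u).rank ≤ s := by
  obtain ⟨B, hB⟩ := hBAD P
  refine hTOP P I s _ (hDEN B hB.1) ?_ y hy
  intro y hyD hy0
  choose t x ht hx hyt using hyD
  obtain ⟨p, hp1, hp2⟩ := hZER P B hB I x (fun i _ => hx i)
    (fun i hi j hj hij => h i hi j hj hij _ _)
  refine ⟨fun i => if i ∈ I then y i else pt (p i), ?_, ?_, ?_⟩
  · intro i
    by_cases hi : i ∈ I
    · simpa [hi] using hy0 i
    · simpa [hi] using pt_ne_zero (p i)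
  · intro i hi
    simp [hi]
  · have hs : ∀ i, ∃ r : ℂ, (if i ∈ I then y i else pt (p i)) = r • pt (p i) := by
      intro i
      by_cases hi : i ∈ I
      · refine ⟨t i, ?_⟩
        rw [if_pos hi, hyt i, hp1 i hi]
      · exact ⟨1, by rw [if_neg hi, one_smul]⟩
    have hM : P.M (fun i => if i ∈ I then y i else pt (p i)) = 0 := by
      ext i j
      simp only [PS.M, Matrix.zero_apply]
      by_cases hij : i = j
      · subst hij
        exact P.F_self i _
      · obtain ⟨r, hr⟩ := hs i
        obtain ⟨r', hr'⟩ := hs j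
        rw [hr, hr', P.F_smul_left, P.F_smul_right, hp2 i j hij]
        ring
    rw [hM, Matrix.rank_zero]
    exact Nat.zero_le _

end INDM

open INDM in
theorem specIND (hBAD : SpecBAD) (hZER : SpecZER) (hRED : SpecRED) (hRNK : SpecRNK)
    (hTOP : SpecTOP) (hDEN : SpecDEN) (hOPN : SpecOPN) : SpecIND := by
  intro m
  induction m with
  | zero =>
    intro ι _ _ P I hI y hy
    refine base hBAD hZER hTOP hDEN P I ?_ _ y hy
    intro i hi j hj hij
    exfalso
    have : I.card ≤ 1 := by omega
    exact hij (Finset.card_le_one.mp this i hi j hj)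
  | succ m ih =>
    intro ι _ _ P I hI y hy
    by_cases h : ∃ i ∈ I, ∃ j ∈ I, i ≠ j ∧ ∃ u v, P.F i j u v ≠ 0
    · obtain ⟨i, hi, j, hj, hij, huv⟩ := h
      refine hTOP P I _ _ (hOPN P i j hij huv) ?_ y hy
      intro y hyD hy0
      obtain ⟨R, hR⟩ := hRED P i j (y i) (y j) hij hyD
      have hcard : (I.subtype (fun k => k ≠ i ∧ k ≠ j)).card = 2 * m + 1 := by
        rw [Finset.card_subtype]
        have : I.filter (fun k => k ≠ i ∧ k ≠ j) = (I.erase i).erase j := by
          ext k
          simp only [Finset.mem_filter, Finset.mem_erase]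
          tauto
        rw [this, Finset.card_erase_of_mem (Finset.mem_erase.mpr ⟨hij.symm, hj⟩),
          Finset.card_erase_of_mem hi, hI]
        omega
      obtain ⟨w, hw0, hw1, hw2⟩ := ih R _ hcard (fun k => y k.1) (fun k => hy0 k.1)
      let u : ι → W := fun k => if hk : k ≠ i ∧ k ≠ j then w ⟨k, hk⟩ else y k
      have hui : u i = y i := by simp [u]
      have huj : u j = y j := by simp [u]
      have huk : ∀ k : {k : ι // k ≠ i ∧ k ≠ j}, u k.1 = w k := by
        intro k
        simp only [u]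
        rw [dif_pos k.2]
      refine ⟨u, ?_, ?_, ?_⟩
      · intro k
        by_cases hk : k ≠ i ∧ k ≠ j
        · have := hw0 ⟨k, hk⟩
          rwa [← huk ⟨k, hk⟩] at this
        · simp only [u]
          rw [dif_neg hk]
          exact hy0 k
      · intro k hk
        by_cases hk' : k ≠ i ∧ k ≠ j
        · have := hw1 ⟨k, hk'⟩ (by simpa using hk)
          rw [← huk ⟨k, hk'⟩] at this
          exact this
        · simp only [u]
          rw [dif_neg hk']
      · have hA : P.M u i j ≠ 0 := by
          simp only [PS.M]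
          rw [hui, huj]
          exact hyD
        have h1 := hRNK (P.M u) i j hij (fun k l => P.F_skew k l _ _) hA
        have h2 : (Matrix.of (fun k l : {k : ι // k ≠ i ∧ k ≠ j} =>
            P.M u k l - (P.M u i k * P.M u j l - P.M u i l * P.M u j k) / P.M u i j)) = R.M w := by
          ext k l
          simp only [Matrix.of_apply, PS.M]
          rw [hR, hui, huj, huk k, huk l]
        rw [h2] at h1
        omega
    · push Not at h
      exact base hBAD hZER hTOP hDEN P I (fun i hi j hj hij u v => h i hi j hj hij u v) _ y hy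

end Pool.Agent.Lib.MPc9b009
end

section
/-!
# MP_c9b009_ag: NDZ
-/
namespace Pool.Agent.Lib.MPc9b009

namespace NDZM

open Filter Topology

/-- the differential of `F i j` -/
lemma hasF {ι : Type} (P : PS ι) (i j : ι) (x y : ℂ) :
    HasFDerivAt (fun p : ℂ × ℂ => P.F i j (pt (some p.1)) (pt (some p.2)))
      ((- P.Dv j i y x) • ContinuousLinearMap.fst ℂ ℂ ℂ
        + (P.Dv i j x y) • ContinuousLinearMap.snd ℂ ℂ ℂ) (x, y) := by
  have hx : HasFDerivAt (fun p : ℂ × ℂ => p.1) (ContinuousLinearMap.fst ℂ ℂ ℂ) (x, y) :=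
    hasFDerivAt_fst
  have hy : HasFDerivAt (fun p : ℂ × ℂ => p.2) (ContinuousLinearMap.snd ℂ ℂ ℂ) (x, y) :=
    hasFDerivAt_snd
  have hq : ∀ c0 c1 c2 : ℂ, HasFDerivAt (fun p : ℂ × ℂ => c0 + c1 * p.1 + c2 * p.1 ^ 2)
      ((c1 + 2 * c2 * x) • ContinuousLinearMap.fst ℂ ℂ ℂ) (x, y) := by
    intro c0 c1 c2
    have h1 : HasDerivAt (fun t : ℂ => c0 + c1 * t + c2 * t ^ 2) (c1 + 2 * c2 * x) x := by
      have := (((hasDerivAt_id x).const_mul c1).const_add c0).add
        ((hasDerivAt_pow 2 x).const_mul c2)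
      refine HasDerivAt.congr_deriv this ?_
      simp
      ring
    exact h1.comp_hasFDerivAt (x, y) hx
  have h0 := hq (P.c i j 0 0) (P.c i j 1 0) (P.c i j 2 0)
  have h1 := hq (P.c i j 0 1) (P.c i j 1 1) (P.c i j 2 1)
  have h2 := hq (P.c i j 0 2) (P.c i j 1 2) (P.c i j 2 2)
  have h := (h0.add (h1.mul hy)).add (h2.mul (hy.pow 2))
  have hF : (fun p : ℂ × ℂ => P.F i j (pt (some p.1)) (pt (some p.2))) =
      fun p : ℂ × ℂ => (P.c i j 0 0 + P.c i j 1 0 * p.1 + P.c i j 2 0 * p.1 ^ 2)
        + (P.c i j 0 1 + P.c i j 1 1 * p.1 + P.c i j 2 1 * p.1 ^ 2) * p.2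
        + (P.c i j 0 2 + P.c i j 1 2 * p.1 + P.c i j 2 2 * p.1 ^ 2) * p.2 ^ 2 := by
    funext p
    simp only [PS.F, PS.q, ev_pt_some]
  rw [hF]
  refine HasFDerivAt.congr_fderiv h ?_
  have e1 : P.Dv j i y x = -((P.c i j 1 0 + P.c i j 1 1 * y + P.c i j 1 2 * y ^ 2)
      + 2 * (P.c i j 2 0 + P.c i j 2 1 * y + P.c i j 2 2 * y ^ 2) * x) := by
    simp only [PS.Dv, wt, PS.q, ev_pt_some, P.skew i j]
    ring
  have e2 : P.Dv i j x y = (P.c i j 0 1 + P.c i j 1 1 * x + P.c i j 2 1 * x ^ 2)
      + 2 * (P.c i j 0 2 + P.c i j 1 2 * x + P.c i j 2 2 * x ^ 2) * y := by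
    simp only [PS.Dv, wt, PS.q, ev_pt_some]
  rw [e1, e2]
  ext <;> simp <;> ring

/-- composition with a linear map -/
lemma comp' {g : ℂ × ℂ → ℂ} {L : ℂ × ℂ →L[ℂ] ℂ} {w : ℂ × ℂ} (h : HasFDerivAt g L w)
    (p : ℂ × ℂ × ℂ →L[ℂ] ℂ × ℂ) (t : ℂ × ℂ × ℂ) (ht : p t = w) :
    HasFDerivAt (fun t => g (p t)) (L.comp p) t := by
  subst ht
  exact h.comp t p.hasFDerivAt

/-- the linear system -/
lemma solve {A B C D E G v1 v2 v3 : ℂ} (hdet : B * G * C - A * E * D ≠ 0)
    (h1 : -A * v1 + B * v2 = 0) (h2 : -C * v1 + D * v3 = 0) (h3 : -E * v2 + G * v3 = 0) :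
    v1 = 0 ∧ v2 = 0 ∧ v3 = 0 := by
  refine ⟨?_, ?_, ?_⟩
  · have : (B * G * C - A * E * D) * v1 = 0 := by
      linear_combination (D * E) * h1 - (B * G) * h2 + (B * D) * h3
    exact (mul_eq_zero.mp this).resolve_left hdet
  · have : (B * G * C - A * E * D) * v2 = 0 := by
      linear_combination (C * G) * h1 - (A * G) * h2 + (A * D) * h3
    exact (mul_eq_zero.mp this).resolve_left hdet
  · have : (B * G * C - A * E * D) * v3 = 0 := by
      linear_combination (C * E) * h1 - (A * E) * h2 + (B * C) * h3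
    exact (mul_eq_zero.mp this).resolve_left hdet

/-- a set with isolated points in a second countable space is countable -/
lemma countable_of_isolated {X : Type*} [TopologicalSpace X] [SecondCountableTopology X]
    (S : Set X) (h : ∀ x ∈ S, ∀ᶠ z in 𝓝[≠] x, z ∉ S) : S.Countable := by
  have hd : DiscreteTopology S := by
    rw [discreteTopology_subtype_iff]
    intro x hx
    rw [Filter.inf_principal_eq_bot]
    exact h x hx
  have : Countable S := by
    rw [← TopologicalSpace.separableSpace_iff_countable]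
    infer_instance
  exact this

end NDZM

open NDZM Filter Topology

theorem specNDZ : SpecNDZ := by
  intro ι P i j l
  apply countable_of_isolated
  rintro ⟨x, y, z⟩ ⟨h1, h2, h3, hjd⟩
  simp only at h1 h2 h3 hjd
  -- the map
  let f : ℂ × ℂ × ℂ → ℂ × ℂ × ℂ := fun t =>
    (P.F i j (pt (some t.1)) (pt (some t.2.1)), P.F i l (pt (some t.1)) (pt (some t.2.2)),
      P.F j l (pt (some t.2.1)) (pt (some t.2.2)))
  let p1 : ℂ × ℂ × ℂ →L[ℂ] ℂ := ContinuousLinearMap.fst ℂ ℂ (ℂ × ℂ)
  let p2 : ℂ × ℂ × ℂ →L[ℂ] ℂ :=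
    (ContinuousLinearMap.fst ℂ ℂ ℂ).comp (ContinuousLinearMap.snd ℂ ℂ (ℂ × ℂ))
  let p3 : ℂ × ℂ × ℂ →L[ℂ] ℂ :=
    (ContinuousLinearMap.snd ℂ ℂ ℂ).comp (ContinuousLinearMap.snd ℂ ℂ (ℂ × ℂ))
  let L1 := ((- P.Dv j i y x) • ContinuousLinearMap.fst ℂ ℂ ℂ
        + (P.Dv i j x y) • ContinuousLinearMap.snd ℂ ℂ ℂ).comp (p1.prod p2)
  let L2 := ((- P.Dv l i z x) • ContinuousLinearMap.fst ℂ ℂ ℂ
        + (P.Dv i l x z) • ContinuousLinearMap.snd ℂ ℂ ℂ).comp (p1.prod p3)
  let L3 := ((- P.Dv l j z y) • ContinuousLinearMap.fst ℂ ℂ ℂ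
        + (P.Dv j l y z) • ContinuousLinearMap.snd ℂ ℂ ℂ).comp (p2.prod p3)
  have hL1 : HasFDerivAt (fun t : ℂ × ℂ × ℂ => P.F i j (pt (some t.1)) (pt (some t.2.1))) L1
      (x, y, z) :=
    comp' (hasF P i j x y) (p1.prod p2) (x, y, z) rfl
  have hL2 : HasFDerivAt (fun t : ℂ × ℂ × ℂ => P.F i l (pt (some t.1)) (pt (some t.2.2))) L2
      (x, y, z) :=
    comp' (hasF P i l x z) (p1.prod p3) (x, y, z) rfl
  have hL3 : HasFDerivAt (fun t : ℂ × ℂ × ℂ => P.F j l (pt (some t.2.1)) (pt (some t.2.2))) L3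
      (x, y, z) :=
    comp' (hasF P j l y z) (p2.prod p3) (x, y, z) rfl
  have hf : HasFDerivAt f (L1.prod (L2.prod L3)) (x, y, z) := hL1.prodMk (hL2.prodMk hL3)
  have hker : LinearMap.ker (L1.prod (L2.prod L3)).toLinearMap = ⊥ := by
    rw [LinearMap.ker_eq_bot']
    rintro ⟨v1, v2, v3⟩ hv
    have hv' : (L1.prod (L2.prod L3)) (v1, v2, v3) = 0 := hv
    simp only [ContinuousLinearMap.prod_apply, Prod.mk_eq_zero] at hv'
    obtain ⟨e1, e2, e3⟩ := hv'
    simp [L1, L2, L3, p1, p2, p3] at e1 e2 e3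
    have := solve (A := P.Dv j i y x) (B := P.Dv i j x y) (C := P.Dv l i z x)
      (D := P.Dv i l x z) (E := P.Dv l j z y) (G := P.Dv j l y z)
      (v1 := v1) (v2 := v2) (v3 := v3) hjd
      (by linear_combination e1) (by linear_combination e2) (by linear_combination e3)
    simp [this.1, this.2.1, this.2.2]
  obtain ⟨K, -, hK⟩ := (L1.prod (L2.prod L3)).toLinearMap.exists_antilipschitzWith hker
  have hev := hf.eventually_ne (c := 0) ⟨K, hK⟩
  filter_upwards [hev] with t ht hS
  exact ht (by
    obtain ⟨g1, g2, g3, -⟩ := hS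
    simp only [f]
    rw [g1, g2, g3]
    rfl)

end Pool.Agent.Lib.MPc9b009
end

section
/-!
# MP_c9b009_ag: the complement of the zero set of a nonzero polynomial function is dense
-/
namespace Pool.Agent.Lib.MPc9b009

theorem specOPN : SpecOPN := by
  classical
  intro ι _ P i j hij ⟨u, v, huv⟩ y
  set w : ι → W := Function.update (Function.update y i u) j v with hw
  have hwi : w i = u := by simp [hw, hij]
  have hwj : w j = v := by simp [hw]
  let h : ℂ → (ι → W) := fun t => y + t • (w - y)
  have hcont : Continuous h := by fun_prop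
  have h0 : h 0 = y := by simp [h]
  have h1 : h 1 = w := by simp [h]
  let g : ℂ → ℂ := fun t => P.F i j (h t i) (h t j)
  have hg1 : g 1 ≠ 0 := by
    simp only [g, h1, hwi, hwj]; exact huv
  have hgd : Differentiable ℂ g := by
    simp only [g, h, PS.F, PS.q, ev, Pi.add_apply, Pi.smul_apply, smul_eq_mul, Pi.sub_apply]
    fun_prop
  have hga : AnalyticOnNhd ℂ g Set.univ := fun x _ => hgd.analyticAt x
  have hev : ∀ᶠ t in nhdsWithin (0 : ℂ) {0}ᶜ, g t ≠ 0 := by
    by_contra hne
    rw [Filter.not_eventually] at hne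
    have hfr : ∃ᶠ t in nhdsWithin (0 : ℂ) {0}ᶜ, g t = 0 := hne.mono fun t ht => by simpa using ht
    have := hga.eqOn_zero_of_preconnected_of_frequently_eq_zero isPreconnected_univ
      (Set.mem_univ 0) hfr
    exact hg1 (this (Set.mem_univ 1))
  have hlim : Filter.Tendsto h (nhdsWithin (0 : ℂ) {0}ᶜ) (nhds y) := by
    have := hcont.tendsto 0
    rw [h0] at this
    exact this.mono_left nhdsWithin_le_nhds
  exact mem_closure_of_tendsto hlim hev

end Pool.Agent.Lib.MPc9b009
end

section
/-!
# MP_c9b009_ag, module POL: the polar point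
-/
namespace Pool.Agent.Lib.MPc9b009

namespace POLM

/-- commuting forms are proportional: if `[p, q] = 0` and `q` vanishes where `p` does not then
`q = 0`. -/
lemma eq_zero_of_br_eq_zero (p q : V) (u : W) (hp : ev p u ≠ 0) (hq : ev q u = 0)
    (h : br p q = 0) : q = 0 := by
  have e0 := congrFun h 0
  have e1 := congrFun h 1
  have e2 := congrFun h 2
  rw [br_apply_zero] at e0
  rw [br_apply_one] at e1
  rw [br_apply_two] at e2
  simp only [Pi.zero_apply] at e0 e1 e2
  simp only [ev] at hp hq
  have h0 : q 0 * (p 0 * u 0 ^ 2 + p 1 * (u 0 * u 1) + p 2 * u 1 ^ 2) = 0 := by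
    linear_combination (u 0 * u 1) * e0 + (u 1 ^ 2 / 2) * e1 + p 0 * hq
  have h1 : q 1 * (p 0 * u 0 ^ 2 + p 1 * (u 0 * u 1) + p 2 * u 1 ^ 2) = 0 := by
    linear_combination (- u 0 ^ 2) * e0 + (u 1 ^ 2) * e2 + p 1 * hq
  have h2 : q 2 * (p 0 * u 0 ^ 2 + p 1 * (u 0 * u 1) + p 2 * u 1 ^ 2) = 0 := by
    linear_combination (- u 0 ^ 2 / 2) * e1 + (- (u 0 * u 1)) * e2 + p 2 * hq
  have k0 := (mul_eq_zero.mp h0).resolve_right hp
  have k1 := (mul_eq_zero.mp h1).resolve_right hp
  have k2 := (mul_eq_zero.mp h2).resolve_right hp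
  ext t; fin_cases t
  · simpa using k0
  · simpa using k1
  · simpa using k2

/-- the eigenvalue is minus the weight -/
lemma wt_eq (p q : V) (a : Option ℂ) (hp : ev p (pt a) ≠ 0) (hq : ev q (pt a) = 0) (μ : ℂ)
    (h : br p q = μ • p) : wt q a = - μ := by
  have h1 := ev_br_of_right p q a hq
  rw [h, ev_smul] at h1
  have h2 : (wt q a + μ) * ev p (pt a) = 0 := by linear_combination h1
  have h3 := (mul_eq_zero.mp h2).resolve_right hp
  linear_combination h3

lemma mu_disc (p q : V) (μ : ℂ) (h : br p q = μ • p) :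
    μ * (p 1 ^ 2 - 4 * p 0 * p 2) = 0 := by
  have e0 := congrFun h 0
  have e1 := congrFun h 1
  have e2 := congrFun h 2
  rw [br_apply_zero] at e0
  rw [br_apply_one] at e1
  rw [br_apply_two] at e2
  simp only [Pi.smul_apply, smul_eq_mul] at e0 e1 e2
  linear_combination (2 * p 2) * e0 + (- p 1) * e1 + (2 * p 0) * e2

/-- a nonzero eigenform forces the discriminant of `p` to vanish -/
lemma mu_ne_zero (p q : V) (a : Option ℂ) (hp : ev p (pt a) ≠ 0) (hq : ev q (pt a) = 0) (μ : ℂ)
    (h : br p q = μ • p) (hq0 : q ≠ 0) : μ ≠ 0 := by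
  intro hμ
  apply hq0
  apply eq_zero_of_br_eq_zero p q (pt a) hp hq
  rw [h, hμ, zero_smul]

end POLM

theorem specPOL : SpecPOL := by
  intro p a hp
  by_cases hd : p 1 ^ 2 - 4 * p 0 * p 2 = 0
  · -- `p` is a square
    by_cases h2 : p 2 = 0
    · -- the double zero is at infinity
      have h1 : p 1 = 0 := by
        rw [h2] at hd
        simpa using hd
      refine ⟨none, fun q hq hμ => ?_⟩
      obtain ⟨μ, hμ⟩ := hμ
      have hw := POLM.wt_eq p q a hp hq μ hμ
      have e0 := congrFun hμ 0
      have e1 := congrFun hμ 1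
      rw [br_apply_zero] at e0
      rw [br_apply_one] at e1
      simp only [Pi.smul_apply, smul_eq_mul, h1, h2] at e0 e1
      have h0 : p 0 ≠ 0 := by
        intro h0
        apply hp
        have : p = 0 := by
          ext t; fin_cases t
          · simpa using h0
          · simpa using h1
          · simpa using h2
        rw [this, ev_zero]
      have k2 : q 2 = 0 := by
        have : p 0 * q 2 = 0 := by linear_combination (-1/2 : ℂ) * e1
        exact (mul_eq_zero.mp this).resolve_left h0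
      have k1 : q 1 = - μ := by
        have : p 0 * (q 1 + μ) = 0 := by linear_combination (-1 : ℂ) * e0
        have := (mul_eq_zero.mp this).resolve_left h0
        linear_combination this
      refine ⟨by rw [ev_pt_none, k2], ?_, ?_⟩
      · rw [hw]; simp only [wt]; rw [k1]
      · intro hq0
        rw [hw]
        exact neg_ne_zero.mpr (POLM.mu_ne_zero p q a hp hq μ hμ hq0)
    · refine ⟨some (- p 1 / (2 * p 2)), fun q hq hμ => ?_⟩
      obtain ⟨μ, hμ⟩ := hμ
      have hw := POLM.wt_eq p q a hp hq μ hμ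
      have e0 := congrFun hμ 0
      have e1 := congrFun hμ 1
      have e2 := congrFun hμ 2
      rw [br_apply_zero] at e0
      rw [br_apply_one] at e1
      rw [br_apply_two] at e2
      simp only [Pi.smul_apply, smul_eq_mul] at e0 e1 e2
      set r : ℂ := - p 1 / (2 * p 2) with hr
      have hp1 : p 1 = - 2 * p 2 * r := by rw [hr]; field_simp
      have hp0 : p 0 = p 2 * r ^ 2 := by
        have : p 2 * (p 0 - p 2 * r ^ 2) = 0 := by
          rw [hp1] at hd
          linear_combination (-1/4 : ℂ) * hd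
        have := (mul_eq_zero.mp this).resolve_left h2
        linear_combination this
      have k1 : q 1 + 2 * r * q 2 = μ := by
        have : p 2 * (q 1 + 2 * r * q 2 - μ) = 0 := by
          rw [hp1] at e2
          linear_combination e2
        have := (mul_eq_zero.mp this).resolve_left h2
        linear_combination this
      have k0 : q 0 - r ^ 2 * q 2 = - μ * r := by
        have : p 2 * (q 0 - r ^ 2 * q 2 + μ * r) = 0 := by
          rw [hp1, hp0] at e1
          linear_combination (1/2 : ℂ) * e1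
        have := (mul_eq_zero.mp this).resolve_left h2
        linear_combination this
      refine ⟨?_, ?_, ?_⟩
      · rw [ev_pt_some]
        linear_combination k0 + r * k1
      · rw [hw]; simp only [wt]
        linear_combination k1
      · intro hq0
        rw [hw]
        exact neg_ne_zero.mpr (POLM.mu_ne_zero p q a hp hq μ hμ hq0)
  · -- there is no nonzero `q`
    refine ⟨a, fun q hq hμ => ?_⟩
    obtain ⟨μ, hμ⟩ := hμ
    have hq0 : q = 0 := by
      by_contra hne
      exact hd ((mul_eq_zero.mp (POLM.mu_disc p q μ hμ)).resolve_left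
        (POLM.mu_ne_zero p q a hp hq μ hμ hne))
    refine ⟨hq, ?_, fun hne => absurd hq0 hne⟩
    rw [hq0]
    cases a <;> simp [wt]

end Pool.Agent.Lib.MPc9b009
end

section
/-!
# MP_c9b009_ag, module OPP: opposite weights
-/
namespace Pool.Agent.Lib.MPc9b009

namespace OPPM

/-- the eigenvector relation coming from the Jacobi identity -/
lemma eigen {ι : Type} (P : PS ι) (i k l : ι) (hik : i ≠ k) (hil : i ≠ l) (hkl : k ≠ l)
    (x : ℂ) (b : Option ℂ) (hb : ev (P.q i l (pt (some x))) (pt b) = 0)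
    (hlb : P.q l i (pt b) = 0) :
    br (P.q l k (pt b)) (P.q i k (pt (some x))) = wt (P.q i l (pt (some x))) b • P.q l k (pt b) := by
  apply ext_ev
  intro v
  have hj := P.jacobi i k l hik hil hkl (pt (some x)) v (pt b)
  rw [hlb] at hj
  have h0 : br (P.q k i v) 0 = 0 := by
    have := br_smul_right 0 (P.q k i v) 0
    simpa using this
  rw [h0, ev_zero, zero_add, ev_br_of_left _ _ b hb] at hj
  have h1 : ev (P.q k l v) (pt b) = - ev (P.q l k (pt b)) v := P.F_skew l k (pt b) v
  rw [h1] at hj
  rw [ev_smul]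
  linear_combination hj

end OPPM

theorem specOPP (hPOL : SpecPOL) : SpecOPP := by
  intro ι P J x k l hk hl hkl a b ha hb hlb hne
  have hp : ev (P.q l k (pt b)) (pt a) ≠ 0 := by
    intro h
    apply hne
    rw [P.F_skew l k (pt b) (pt a)]
    change - ev (P.q l k (pt b)) (pt a) = 0
    rw [h, neg_zero]
  have hik : ∀ i ∈ J, i ≠ k := fun i hi h => hk (h ▸ hi)
  have hil : ∀ i ∈ J, i ≠ l := fun i hi h => hl (h ▸ hi)
  have heig : ∀ i ∈ J, br (P.q l k (pt b)) (P.q i k (pt (some (x i))))
      = wt (P.q i l (pt (some (x i)))) b • P.q l k (pt b) := fun i hi =>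
    OPPM.eigen P i k l (hik i hi) (hil i hi) hkl (x i) b (hb i hi) (hlb i hi)
  obtain ⟨a', ha'⟩ := hPOL (P.q l k (pt b)) a hp
  refine ⟨fun i hi => ?_, ⟨a', fun i hi => ?_⟩, fun i hi => ?_⟩
  · exact POLM.wt_eq _ _ a hp (ha i hi) _ (heig i hi)
  · have h := ha' _ (ha i hi) ⟨_, heig i hi⟩
    exact ⟨h.1, h.2.1⟩
  · exact (ha' _ (ha i hi) ⟨_, heig i hi⟩).2.2

end Pool.Agent.Lib.MPc9b009
end

section
/-!
# MP_c9b009_ag: RED
-/
namespace Pool.Agent.Lib.MPc9b009

namespace REDM

variable {ι : Type} (P : PS ι) (i j : ι) (u v : W)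

/-- the coefficients of the reduced structure -/
noncomputable def rc (k l : ι) (s t : Fin 3) : ℂ :=
  P.c k l s t - (P.q i k u s * P.q j l v t - P.q i l u t * P.q j k v s) / P.F i j u v

lemma rc_q (k l : ι) (w : W) : (fun b => ev (fun a => rc P i j u v k l a b) w) =
    P.q k l w + (- P.F i k u w / P.F i j u v) • P.q j l v
      + (P.F j k v w / P.F i j u v) • P.q i l u := by
  ext b
  simp only [Pi.add_apply, Pi.smul_apply, smul_eq_mul]
  have h1 : P.q k l w b = ev (fun a => P.c k l a b) w := rfl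
  have h2 : P.F i k u w = ev (P.q i k u) w := rfl
  have h3 : P.F j k v w = ev (P.q j k v) w := rfl
  rw [h1, h2, h3]
  simp only [ev, rc]
  ring

end REDM

open REDM

theorem specRED : SpecRED := by
  intro ι P i j u v hij ha
  refine ⟨⟨fun k l s t => rc P i j u v k l s t, ?_, ?_⟩, ?_⟩
  · intro k l s t
    simp only [rc]
    rw [P.skew k l s t]
    ring
  · rintro ⟨k, hki, hkj⟩ ⟨l, hli, hlj⟩ ⟨m, hmi, hmj⟩ hkl hkm hlm w1 w2 w3
    have hkl' : k ≠ l := fun h => hkl (Subtype.ext h)
    have hkm' : k ≠ m := fun h => hkm (Subtype.ext h)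
    have hlm' : l ≠ m := fun h => hlm (Subtype.ext h)
    simp only
    rw [rc_q P i j u v l k w2, rc_q P i j u v m k w3, rc_q P i j u v m l w3,
      rc_q P i j u v k l w1, rc_q P i j u v k m w1, rc_q P i j u v l m w2]
    set a := P.F i j u v with hadef
    set μk := - P.F i k u w1 / a with hμk
    set μl := - P.F i l u w2 / a with hμl
    set μm := - P.F i m u w3 / a with hμm
    set lk := P.F j k v w1 / a with hlk
    set ll := P.F j l v w2 / a with hll
    set lm := P.F j m v w3 / a with hlm2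
    simp only [br_add_left, br_add_right, br_smul_left, br_smul_right, ev_add, ev_smul, br_self,
      ev_zero, mul_zero, add_zero]
    -- Jacobi identities
    have J1 := P.jacobi k l m hkl' hkm' hlm' w1 w2 w3
    have J2 := P.jacobi i l m (Ne.symm hli) (Ne.symm hmi) hlm' u w2 w3
    have J3 := P.jacobi j l m (Ne.symm hlj) (Ne.symm hmj) hlm' v w2 w3
    have J4 := P.jacobi k i m hki hkm' (Ne.symm hmi) w1 u w3
    have J5 := P.jacobi k j m hkj hkm' (Ne.symm hmj) w1 v w3
    have J6 := P.jacobi k l i hkl' hki hli w1 w2 u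
    have J7 := P.jacobi k l j hkl' hkj hlj w1 w2 v
    have J8 := P.jacobi i j m hij (Ne.symm hmi) (Ne.symm hmj) u v w3
    have J9 := P.jacobi i l j (Ne.symm hli) hij hlj u w2 v
    have J10 := P.jacobi k i j hki hkj hij w1 u v
    -- values
    have Fi : ∀ (n : ι) (z : W), ev (P.q n i z) u = - P.F i n u z := fun n z => P.F_skew i n u z
    have Fj : ∀ (n : ι) (z : W), ev (P.q n j z) v = - P.F j n v z := fun n z => P.F_skew j n v z
    have Fij : ev (P.q i j u) v = a := rfl
    have Fji : ev (P.q j i v) u = - a := P.F_skew i j u v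
    have vk : P.F i k u w1 = - (a * μk) := by rw [hμk]; field_simp
    have vl : P.F i l u w2 = - (a * μl) := by rw [hμl]; field_simp
    have vm : P.F i m u w3 = - (a * μm) := by rw [hμm]; field_simp
    have xk : P.F j k v w1 = a * lk := by rw [hlk]; field_simp
    have xl : P.F j l v w2 = a * ll := by rw [hll]; field_simp
    have xm : P.F j m v w3 = a * lm := by rw [hlm2]; field_simp
    -- cyclic identities in slot i
    have Ci1 := ev_br_cycle (P.q j i v) (P.q l i w2) (P.q m i w3) u
    have Ci2 := ev_br_cycle (P.q j i v) (P.q m i w3) (P.q k i w1) u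
    have Ci3 := ev_br_cycle (P.q j i v) (P.q k i w1) (P.q l i w2) u
    have Cj1 := ev_br_cycle (P.q i j u) (P.q l j w2) (P.q m j w3) v
    have Cj2 := ev_br_cycle (P.q i j u) (P.q m j w3) (P.q k j w1) v
    have Cj3 := ev_br_cycle (P.q i j u) (P.q k j w1) (P.q l j w2) v
    rw [Fji, Fi, Fi, vl, vm] at Ci1
    rw [Fji, Fi, Fi, vm, vk] at Ci2
    rw [Fji, Fi, Fi, vk, vl] at Ci3
    rw [Fij, Fj, Fj, xl, xm] at Cj1
    rw [Fij, Fj, Fj, xm, xk] at Cj2
    rw [Fij, Fj, Fj, xk, xl] at Cj3
    -- antisymmetry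
    have N : ∀ (x y : V) (z : W), ev (br y x) z = - ev (br x y) z := fun x y z => by
      rw [br_comm, ev_neg]
    have N1 := N (P.q j i v) (P.q m i w3) u
    have N2 := N (P.q j i v) (P.q l i w2) u
    have N3 := N (P.q j i v) (P.q k i w1) u
    have N4 := N (P.q i j u) (P.q m j w3) v
    have N5 := N (P.q i j u) (P.q l j w2) v
    have N6 := N (P.q i j u) (P.q k j w1) v
    have N7 := N (P.q i k u) (P.q j k v) w1
    have N8 := N (P.q i l u) (P.q j l v) w2
    have N9 := N (P.q i m u) (P.q j m v) w3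
    rw [N1] at Ci1
    rw [N3] at Ci2
    rw [N2] at Ci3
    rw [N4] at Cj1 J8
    rw [N6] at Cj2 J10
    rw [N5] at Cj3
    rw [N2] at J9
    rw [N8] at J9
    rw [N7, N8, N9]
    have D1 : ev (br (P.q l i w2) (P.q m i w3)) u = - μl * ev (br (P.q j i v) (P.q m i w3)) u
        + μm * ev (br (P.q j i v) (P.q l i w2)) u :=
      mul_left_cancel₀ ha (by linear_combination (-1 : ℂ) * Ci1)
    have D2 : ev (br (P.q m i w3) (P.q k i w1)) u = - μm * ev (br (P.q j i v) (P.q k i w1)) u
        + μk * ev (br (P.q j i v) (P.q m i w3)) u :=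
      mul_left_cancel₀ ha (by linear_combination (-1 : ℂ) * Ci2)
    have D3 : ev (br (P.q k i w1) (P.q l i w2)) u = - μk * ev (br (P.q j i v) (P.q l i w2)) u
        + μl * ev (br (P.q j i v) (P.q k i w1)) u :=
      mul_left_cancel₀ ha (by linear_combination (-1 : ℂ) * Ci3)
    have E1 : ev (br (P.q l j w2) (P.q m j w3)) v = - ll * ev (br (P.q i j u) (P.q m j w3)) v
        + lm * ev (br (P.q i j u) (P.q l j w2)) v :=
      mul_left_cancel₀ ha (by linear_combination Cj1)
    have E2 : ev (br (P.q m j w3) (P.q k j w1)) v = - lm * ev (br (P.q i j u) (P.q k j w1)) v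
        + lk * ev (br (P.q i j u) (P.q m j w3)) v :=
      mul_left_cancel₀ ha (by linear_combination Cj2)
    have E3 : ev (br (P.q k j w1) (P.q l j w2)) v = - lk * ev (br (P.q i j u) (P.q l j w2)) v
        + ll * ev (br (P.q i j u) (P.q k j w1)) v :=
      mul_left_cancel₀ ha (by linear_combination Cj3)
    linear_combination J1 + lk * J2 + μk * J3 + ll * J4 + μl * J5 + lm * J6 + μm * J7
      + (lk * μl - μk * ll) * J8 + (lk * μm - μk * lm) * J9 + (ll * μm - μl * lm) * J10
      - lk * D1 - ll * D2 - lm * D3 - μk * E1 - μl * E2 - μm * E3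
  · intro k l w z
    show ev (fun b => ev (fun a => rc P i j u v k l a b) w) z = _
    rw [rc_q]
    rw [ev_add, ev_add, ev_smul, ev_smul]
    have h1 : ev (P.q k l w) z = P.F k l w z := rfl
    have h2 : ev (P.q j l v) z = P.F j l v z := rfl
    have h3 : ev (P.q i l u) z = P.F i l u z := rfl
    rw [h1, h2, h3]
    field_simp
    ring

end Pool.Agent.Lib.MPc9b009
end

section
/-! Module REL. -/
set_option autoImplicit false

namespace Pool.Agent.Lib.MPc9b009

theorem specREL : SpecREL := by
  intro ι P i j k hij hik hjk x y h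
  apply ext_ev
  intro w
  have hJ := P.jacobi i j k hij hik hjk (pt (some x)) (pt (some y)) w
  have h1 : ev (P.q j i (pt (some y))) (pt (some x)) = 0 := by
    have := P.F_skew i j (pt (some x)) (pt (some y))
    rw [h, neg_zero] at this
    exact this
  rw [ev_br_of_left _ _ _ h1, ev_br_of_right _ _ _ (show ev (P.q i j (pt (some x)))
    (pt (some y)) = 0 from h)] at hJ
  have h2 : ev (P.q k i w) (pt (some x)) = - ev (P.q i k (pt (some x))) w :=
    P.F_skew i k (pt (some x)) w
  have h3 : ev (P.q k j w) (pt (some y)) = - ev (P.q j k (pt (some y))) w :=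
    P.F_skew j k (pt (some y)) w
  rw [h2, h3] at hJ
  rw [ev_sub, ev_smul, ev_smul]
  unfold PS.Dv
  linear_combination hJ

end Pool.Agent.Lib.MPc9b009
end

section
/-! Module RNK. -/
set_option autoImplicit false

namespace Pool.Agent.Lib.MPc9b009

open Matrix

namespace RNKM

lemma rank_add_le' {ι : Type} [Fintype ι] (A B : Matrix ι ι ℂ) :
    (A + B).rank ≤ A.rank + B.rank := by
  have h1 : LinearMap.range (A + B).mulVecLin ≤
      LinearMap.range A.mulVecLin ⊔ LinearMap.range B.mulVecLin := by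
    rintro _ ⟨v, rfl⟩
    rw [mulVecLin_apply, add_mulVec]
    exact Submodule.add_mem_sup ⟨v, rfl⟩ ⟨v, rfl⟩
  unfold Matrix.rank
  exact (Submodule.finrank_mono h1).trans (Submodule.finrank_add_le_finrank_add_finrank _ _)

end RNKM

open RNKM in
theorem specRNK : SpecRNK := by
  intro ι _ _ A i j hij hA ha
  have hii : ∀ k, A k k = 0 := by
    intro k
    have := hA k k
    linear_combination (1 / 2 : ℂ) * this
  set S : Matrix {k : ι // k ≠ i ∧ k ≠ j} {k : ι // k ≠ i ∧ k ≠ j} ℂ :=
    Matrix.of (fun k l : {k : ι // k ≠ i ∧ k ≠ j} =>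
      A k l - (A i k * A j l - A i l * A j k) / A i j) with hS
  let E : Matrix ι {k : ι // k ≠ i ∧ k ≠ j} ℂ := Matrix.of fun k l => if k = l then 1 else 0
  let R1 : Matrix ι ι ℂ := vecMulVec (fun k => A i k / A i j) (fun l => A j l)
  let R2 : Matrix ι ι ℂ := vecMulVec (fun k => - (A j k / A i j)) (fun l => A i l)
  have hdec : A = R1 + R2 + E * S * Eᵀ := by
    ext k l
    have hR : (R1 + R2) k l = (A i k * A j l - A i l * A j k) / A i j := by
      simp only [R1, R2, Matrix.add_apply, vecMulVec_apply]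
      field_simp
      ring
    have hE : (E * S * Eᵀ) k l = if h : (k ≠ i ∧ k ≠ j) ∧ (l ≠ i ∧ l ≠ j) then
        S ⟨k, h.1⟩ ⟨l, h.2⟩ else 0 := by
      rw [Matrix.mul_apply]
      split_ifs with h
      · rw [Finset.sum_eq_single (⟨l, h.2⟩ : {k : ι // k ≠ i ∧ k ≠ j})]
        · rw [Matrix.mul_apply, Finset.sum_eq_single (⟨k, h.1⟩ : {k : ι // k ≠ i ∧ k ≠ j})]
          · simp [E]
          · intro b _ hb
            have : k ≠ (b : ι) := fun h' => hb (Subtype.ext h'.symm)
            simp [E, this]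
          · intro h'; exact absurd (Finset.mem_univ _) h'
        · intro b _ hb
          have : l ≠ (b : ι) := fun h' => hb (Subtype.ext h'.symm)
          simp [E, this]
        · intro h'; exact absurd (Finset.mem_univ _) h'
      · apply Finset.sum_eq_zero
        intro b _
        rw [Matrix.transpose_apply]
        by_cases hl : l ≠ i ∧ l ≠ j
        · have hk : ¬ (k ≠ i ∧ k ≠ j) := fun hk => h ⟨hk, hl⟩
          have h0 : (E * S) k b = 0 := by
            rw [Matrix.mul_apply]
            apply Finset.sum_eq_zero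
            intro c _
            have : k ≠ (c : ι) := fun h' => hk (h' ▸ c.2)
            simp [E, this]
          rw [h0, zero_mul]
        · have : l ≠ (b : ι) := fun h' => hl (h' ▸ b.2)
          simp [E, this]
    rw [Matrix.add_apply, hR, hE]
    split_ifs with h
    · rw [hS, Matrix.of_apply]; ring
    · rw [add_zero]
      have hji : A j i = - A i j := hA i j
      rw [eq_div_iff ha]
      by_cases hki : k = i
      · subst hki; rw [hii, hji]; ring
      by_cases hkj : k = j
      · subst hkj; rw [hii]; ring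
      by_cases hli : l = i
      · subst hli; rw [hii, hji, hA l k]; ring
      by_cases hlj : l = j
      · subst hlj; rw [hii, hA l k]; ring
      exact absurd ⟨⟨hki, hkj⟩, hli, hlj⟩ h
  have h1 : R1.rank ≤ 1 := rank_vecMulVec_le _ _
  have h2 : R2.rank ≤ 1 := rank_vecMulVec_le _ _
  have h3 : (E * S * Eᵀ).rank ≤ S.rank :=
    (rank_mul_le_left _ _).trans (rank_mul_le_right _ _)
  calc A.rank = (R1 + R2 + E * S * Eᵀ).rank := by rw [← hdec]
    _ ≤ (R1 + R2).rank + (E * S * Eᵀ).rank := rank_add_le' _ _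
    _ ≤ (R1.rank + R2.rank) + (E * S * Eᵀ).rank := by gcongr; exact rank_add_le' _ _
    _ ≤ 2 + S.rank := by omega

end Pool.Agent.Lib.MPc9b009
end

section
/-!
# MP_c9b009_ag, module SEL: selection of the constants by a sign rule
-/
namespace Pool.Agent.Lib.MPc9b009

namespace SELM

/-- the sign rule -/
def Pos {α : Type} (w : α → ℂ) : Prop := WellOrderingRel (-w) w

lemma pos_or {α : Type} (w : α → ℂ) (hw : w ≠ 0) : Pos w ∨ Pos (-w) := by
  rcases trichotomous_of WellOrderingRel (-w) w with h | h | h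
  · exact Or.inl h
  · exfalso
    apply hw
    ext i
    have := congrFun h i
    simp only [Pi.neg_apply] at this
    simp only [Pi.zero_apply]
    linear_combination (-1/2 : ℂ) * this
  · right
    unfold Pos
    rw [neg_neg]
    exact h

lemma not_pos_neg {α : Type} (w : α → ℂ) (h : Pos w) : ¬ Pos (-w) := by
  intro h'
  unfold Pos at h h'
  rw [neg_neg] at h'
  exact asymm_of WellOrderingRel h h'

end SELM

theorem specSEL (hOPP : SpecOPP) : SpecSEL := by
  classical
  intro ι P J x h1 h2 h3
  -- common zeros and weights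
  let Z : ι → Option ℂ → Prop := fun k a => ∀ i ∈ J, ev (P.q i k (pt (some (x i)))) (pt a) = 0
  let om : ι → Option ℂ → (J → ℂ) := fun k a i => wt (P.q i k (pt (some (x i)))) a
  have hch : ∀ k, ∃ a : Option ℂ, k ∉ J → Z k a ∧ ((∃ a', Z k a' ∧ SELM.Pos (om k a')) →
      SELM.Pos (om k a)) := by
    intro k
    by_cases hk : k ∈ J
    · exact ⟨none, fun h => absurd hk h⟩
    · by_cases hp : ∃ a', Z k a' ∧ SELM.Pos (om k a')
      · obtain ⟨a, ha, hpa⟩ := hp
        exact ⟨a, fun _ => ⟨ha, fun _ => hpa⟩⟩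
      · obtain ⟨a, ha⟩ := h1 k hk
        exact ⟨a, fun _ => ⟨ha, fun h => absurd h hp⟩⟩
  choose p hp using hch
  refine ⟨p, fun k hk => (hp k hk).1, ?_⟩
  -- the key step
  have key : ∀ k, k ∉ J → ∀ l, l ∉ J → k ≠ l → P.F k l (pt (p k)) (pt (p l)) ≠ 0 →
      om k (p k) = - om l (p l) ∧ SELM.Pos (om k (p k)) := by
    intro k hk l hl hkl hne
    obtain ⟨c1, ⟨a', ha'⟩, c3⟩ := hOPP P J x k l hk hl hkl (p k) (p l) (hp k hk).1 (hp l hl).1
      (h2 l hl (p l) (hp l hl).1) hne
    refine ⟨?_, ?_⟩
    · ext i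
      exact c1 i i.2
    · apply (hp k hk).2
      have hom : om k (p k) ≠ 0 := by
        intro h0
        obtain ⟨i, hi, hne'⟩ := h3 k hk
        exact c3 i hi hne' (congrFun h0 ⟨i, hi⟩)
      rcases SELM.pos_or _ hom with h | h
      · exact ⟨p k, (hp k hk).1, h⟩
      · refine ⟨a', fun i hi => (ha' i hi).1, ?_⟩
        have : om k a' = - om k (p k) := by
          ext i
          exact (ha' i i.2).2
        rw [this]
        exact h
  intro k hk l hl hkl
  by_contra hne
  obtain ⟨e1, p1⟩ := key k hk l hl hkl hne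
  have hne' : P.F l k (pt (p l)) (pt (p k)) ≠ 0 := by
    rw [P.F_skew k l (pt (p k)) (pt (p l))]
    exact neg_ne_zero.mpr hne
  obtain ⟨_, p2⟩ := key l hl k hk (Ne.symm hkl) hne'
  rw [e1] at p1
  exact SELM.not_pos_neg _ p2 p1

end Pool.Agent.Lib.MPc9b009
end

section
/-!
# MP_c9b009_ag: passing to the limit
-/
namespace Pool.Agent.Lib.MPc9b009

namespace TOPM

/-- Matrices of rank at most `s` form a closed set. -/
lemma isClosed_rank_le {ι : Type} [Fintype ι] [DecidableEq ι] (s : ℕ) :
    IsClosed {A : Matrix ι ι ℂ | A.rank ≤ s} := by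
  have hopen : IsOpen {f : (ι → ℂ) →L[ℂ] (ι → ℂ) |
      ((s + 1 : ℕ) : Cardinal) ≤ (f : (ι → ℂ) →ₗ[ℂ] (ι → ℂ)).rank} :=
    isOpen_setOfPred_nat_le_rank (s + 1)
  let Φ : Matrix ι ι ℂ →ₗ[ℂ] ((ι → ℂ) →L[ℂ] (ι → ℂ)) :=
    (LinearMap.toContinuousLinearMap (𝕜 := ℂ) (E := ι → ℂ) (F' := ι → ℂ)).toLinearMap ∘ₗ
      (Matrix.toLin' (R := ℂ) (m := ι) (n := ι)).toLinearMap
  have hΦ : Continuous Φ := Φ.continuous_of_finiteDimensional
  have hpre := hopen.preimage hΦ
  rw [← isOpen_compl_iff]
  convert hpre using 1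
  ext A
  simp only [Set.mem_compl_iff, Set.mem_ofPred_eq, Set.mem_preimage, not_le]
  have hA : ((Φ A : (ι → ℂ) →L[ℂ] (ι → ℂ)) : (ι → ℂ) →ₗ[ℂ] (ι → ℂ)) = Matrix.toLin' A := by
    ext v; rfl
  rw [hA]
  have h2 : (Matrix.toLin' A).rank = ((A.rank : ℕ) : Cardinal) := by
    rw [Matrix.rank_eq_finrank_range_toLin A (Pi.basisFun ℂ ι) (Pi.basisFun ℂ ι),
      Matrix.toLin_eq_toLin']
    exact (Module.finrank_eq_rank ℂ _).symm
  rw [h2]
  simp only [Nat.cast_le]
  omega

/-- the matrix of a Poisson structure depends continuously on the point -/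
lemma continuous_M {ι : Type} [Fintype ι] (P : PS ι) : Continuous (fun u : ι → W => P.M u) := by
  refine continuous_pi fun i => continuous_pi fun j => ?_
  simp only [PS.M, PS.F, PS.q, ev]
  fun_prop

/-- scaling the vectors does not raise the rank -/
lemma rank_scale {ι : Type} [Fintype ι] [DecidableEq ι] (P : PS ι) (t : ι → ℂ) (u : ι → W) :
    (P.M (fun i => t i • u i)).rank ≤ (P.M u).rank := by
  have h : P.M (fun i => t i • u i) =
      Matrix.diagonal (fun i => t i ^ 2) * P.M u * Matrix.diagonal (fun i => t i ^ 2) := by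
    ext i j
    rw [Matrix.mul_diagonal, Matrix.diagonal_mul]
    simp only [PS.M]
    rw [PS.F_smul_left, PS.F_smul_right]
    ring
  rw [h]
  exact (Matrix.rank_mul_le_left _ _).trans (Matrix.rank_mul_le_right _ _)

end TOPM

open TOPM in
theorem specTOP : SpecTOP := by
  classical
  intro ι _ _ P I s D hD h y hy
  -- a sequence in `D` converging to `y` with nonzero coordinates
  have hU : IsOpen {z : ι → W | ∀ i, z i ≠ 0} := by
    have : {z : ι → W | ∀ i, z i ≠ 0} = ⋂ i, {z : ι → W | z i ≠ 0} := by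
      ext z; simp
    rw [this]
    exact isOpen_iInter_of_finite fun i =>
      isOpen_ne.preimage (continuous_apply i)
  have hcl : y ∈ closure (D ∩ {z : ι → W | ∀ i, z i ≠ 0}) := by
    rw [mem_closure_iff]
    intro O hO hyO
    obtain ⟨z, hz1, hz2⟩ := hD.inter_open_nonempty _ (hO.inter hU) ⟨y, hyO, hy⟩
    exact ⟨z, hz1.1, hz2, hz1.2⟩
  obtain ⟨z, hz, hzy⟩ := mem_closure_iff_seq_limit.1 hcl
  choose u hu0 huI hur using fun n => h (z n) (hz n).1 (hz n).2
  -- normalised vectors
  set v : ℕ → ι → W := fun n i => (if i ∈ I then (1 : ℂ) else ((‖u n i‖⁻¹ : ℝ) : ℂ)) • u n i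
    with hv
  have hvI : ∀ n, ∀ i ∈ I, v n i = z n i := by
    intro n i hi
    simp [hv, hi, huI n i hi]
  have hvN : ∀ n i, i ∉ I → ‖v n i‖ = 1 := by
    intro n i hi
    simp only [hv, if_neg hi, norm_smul, Complex.norm_real, norm_inv, norm_norm]
    exact inv_mul_cancel₀ (norm_ne_zero_iff.2 (hu0 n i))
  have hvr : ∀ n, (P.M (v n)).rank ≤ s := fun n => (rank_scale P _ (u n)).trans (hur n)
  -- boundedness
  have hbd : ∀ i, ∃ R : ℝ, ∀ n, ‖v n i‖ ≤ R := by
    intro i
    by_cases hi : i ∈ I
    · have hconv : Filter.Tendsto (fun n => z n i) Filter.atTop (nhds (y i)) :=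
        (continuous_apply i).continuousAt.tendsto.comp hzy
      obtain ⟨R, hR⟩ := (hconv.norm.bddAbove_range)
      exact ⟨R, fun n => by rw [hvI n i hi]; exact hR ⟨n, rfl⟩⟩
    · exact ⟨1, fun n => (hvN n i hi).le⟩
  choose R hR using hbd
  have hK : IsCompact (Set.pi Set.univ fun i => Metric.closedBall (0 : W) (R i)) :=
    isCompact_univ_pi fun i => isCompact_closedBall _ _
  obtain ⟨w, -, φ, hφ, hlim⟩ := hK.tendsto_subseq (x := v) (fun n => by
    intro i _
    rw [mem_closedBall_zero_iff]
    exact hR i n)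
  have hlimi : ∀ i, Filter.Tendsto (fun n => v (φ n) i) Filter.atTop (nhds (w i)) := fun i =>
    (continuous_apply i).continuousAt.tendsto.comp hlim
  have hwI : ∀ i ∈ I, w i = y i := by
    intro i hi
    refine tendsto_nhds_unique (hlimi i) ?_
    have hconv : Filter.Tendsto (fun n => z n i) Filter.atTop (nhds (y i)) :=
      (continuous_apply i).continuousAt.tendsto.comp hzy
    have := hconv.comp hφ.tendsto_atTop
    refine this.congr fun n => ?_
    simp [hvI (φ n) i hi]
  refine ⟨w, fun i => ?_, hwI, ?_⟩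
  · by_cases hi : i ∈ I
    · rw [hwI i hi]; exact hy i
    · have h1 : ‖w i‖ = 1 := by
        refine tendsto_nhds_unique (hlimi i).norm ?_
        simp [hvN _ i hi]
      intro h0
      rw [h0] at h1
      simp at h1
  · have hc := isClosed_rank_le (ι := ι) s
    have ht : Filter.Tendsto (fun n => P.M (v (φ n))) Filter.atTop (nhds (P.M w)) :=
      (continuous_M P).continuousAt.tendsto.comp hlim
    exact hc.mem_of_tendsto ht (Filter.Eventually.of_forall fun n => hvr (φ n))

end Pool.Agent.Lib.MPc9b009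
end

section
/-!
# MP_c9b009_ag, module ZER: existence of zeros over a zero of the coordinates in `I`
-/
namespace Pool.Agent.Lib.MPc9b009

namespace ZERM

/-- a zero of the coordinates in `J`, in general position, that extends `x` on `I` -/
def Q {ι : Type} (P : PS ι) (B : Set (Option ℂ)) (I : Finset ι) (x : ι → ℂ) (J : Finset ι)
    (y : ι → ℂ) : Prop :=
  I ⊆ J ∧ (∀ i ∈ I, y i = x i) ∧ (∀ i ∈ J, some (y i) ∉ B) ∧
    ∀ i ∈ J, ∀ j ∈ J, i ≠ j → P.F i j (pt (some (y i))) (pt (some (y j))) = 0

lemma exists_max {ι : Type} [Finite ι] (P : PS ι) (B : Set (Option ℂ)) (I : Finset ι)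
    (x : ι → ℂ) (h : Q P B I x I x) :
    ∃ J y, Q P B I x J y ∧ ∀ J' y', Q P B I x J' y' → ¬ J < J' := by
  obtain ⟨J, ⟨y, hy⟩, hmax⟩ := WellFounded.has_min (wellFounded_gt (α := Finset ι))
    {J | ∃ y, Q P B I x J y} ⟨I, x, h⟩
  exact ⟨J, y, hy, fun J' y' h' => hmax J' ⟨y', h'⟩⟩

lemma countable_univ_false (B : Set (Option ℂ)) (hB : B.Countable) (h : ∀ a, a ∈ B) : False := by
  have h1 : (Set.univ : Set (Option ℂ)).Countable := hB.mono (fun a _ => h a)
  have h2 : Countable (Option ℂ) := Set.countable_univ_iff.mp h1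
  have h3 : Countable ℂ := (Option.some_injective ℂ).countable
  exact not_countable_complex (Set.countable_univ_iff.mpr h3)

end ZERM

theorem specZER (hEXT : SpecEXT) (hSEL : SpecSEL) : SpecZER := by
  classical
  intro ι _ P B hB I x hx hF
  obtain ⟨J, y, ⟨hIJ, hyI, hyB, hyF⟩, hmax⟩ := ZERM.exists_max P B I x
    ⟨Finset.Subset.refl _, fun _ _ => rfl, hx, hF⟩
  -- by maximality the common zeros are in `B`
  have hinB : ∀ k, k ∉ J → ∀ a : Option ℂ,
      (∀ i ∈ J, ev (P.q i k (pt (some (y i)))) (pt a) = 0) → a ∈ B := by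
    intro k hk a ha
    by_contra hna
    cases a with
    | none => exact hna hB.2.1
    | some z =>
      apply hmax (insert k J) (Function.update y k z) _ (Finset.ssubset_insert hk)
      have hne : ∀ i ∈ J, i ≠ k := fun i hi h => hk (h ▸ hi)
      have hu : ∀ i ∈ J, Function.update y k z i = y i := fun i hi =>
        Function.update_of_ne (hne i hi) _ _
      have huk : Function.update y k z k = z := Function.update_self _ _ _
      refine ⟨hIJ.trans (Finset.subset_insert _ _), fun i hi => ?_, fun i hi => ?_,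
        fun i hi j hj hij => ?_⟩
      · rw [hu i (hIJ hi), hyI i hi]
      · rcases Finset.mem_insert.mp hi with h | h
        · rw [h, huk]; exact hna
        · rw [hu i h]; exact hyB i h
      · rcases Finset.mem_insert.mp hi with h | h
        · rcases Finset.mem_insert.mp hj with h' | h'
          · exact absurd (h.trans h'.symm) hij
          · rw [h, huk, hu j h', P.F_skew j k]
            have := ha j h'
            change - ev (P.q j k (pt (some (y j)))) (pt (some z)) = 0
            rw [this, neg_zero]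
        · rcases Finset.mem_insert.mp hj with h' | h'
          · rw [h', huk, hu i h]
            exact ha i h
          · rw [hu i h, hu j h']
            exact hyF i h j h' hij
  have hEX := hEXT P B hB J y hyB hyF
  obtain ⟨p, hp1, hp2⟩ := hSEL P J y hEX (by
    intro k hk a ha i hi
    by_contra hne
    have haB := hinB k hk a ha
    refine hyB i hi (hB.2.2.1 k i a (some (y i)) haB hne ?_)
    change P.F k i (pt a) (pt (some (y i))) = 0
    rw [P.F_skew i k]
    have := ha i hi
    change - ev (P.q i k (pt (some (y i)))) (pt a) = 0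
    rw [this, neg_zero]) (by
    intro k hk
    by_contra hno
    push Not at hno
    refine ZERM.countable_univ_false B hB.1 (fun a => hinB k hk a (fun i hi => ?_))
    rw [hno i hi, ev_zero])
  refine ⟨fun i => if i ∈ J then some (y i) else p i, fun i hi => ?_, fun i j hij => ?_⟩
  · simp only [hIJ hi, if_true, hyI i hi]
  · by_cases hi : i ∈ J <;> by_cases hj : j ∈ J <;> simp only [hi, hj, if_true, if_false]
    · exact hyF i hi j hj hij
    · exact hp1 j hj i hi
    · rw [P.F_skew j i]
      have := hp1 i hi j hj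
      change - ev (P.q j i (pt (some (y j)))) (pt (p i)) = 0
      rw [this, neg_zero]
    · exact hp2 i hi j hj hij

end Pool.Agent.Lib.MPc9b009
end
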