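import Pool.Agent.Lib.MP_c9b009_ag.Statement
import Pool.Agent.Lib.MP_c9b009_ag.ZER

section
/-!
# MP_c9b009_ag, module CONV: from polynomials to coefficients
-/
set_option autoImplicit false

namespace Pool.Agent.Lib.MPc9b009

namespace CONVM

open MvPolynomial

variable {n : ℕ} (τ : Poisson n)

/-- the exponent -/
noncomputable def ex (i j : Fin n) (a b : Fin 3) : Fin n →₀ ℕ :=
  Finsupp.single i (a : ℕ) + Finsupp.single j (b : ℕ)

theorem g_self (i : Fin n) : τ.g i i = 0 := self_eq_neg.1 (τ.skew i i)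

theorem ex_i {i j : Fin n} (hij : i ≠ j) (a b : Fin 3) : ex i j a b i = a := by
  rw [ex, Finsupp.add_apply, Finsupp.single_eq_same, Finsupp.single_eq_of_ne hij, add_zero]

theorem ex_j {i j : Fin n} (hij : i ≠ j) (a b : Fin 3) : ex i j a b j = b := by
  rw [ex, Finsupp.add_apply, Finsupp.single_eq_same, Finsupp.single_eq_of_ne hij.symm, zero_add]

theorem gform {i j : Fin n} (hij : i ≠ j) :
    τ.g i j = ∑ a : Fin 3, ∑ b : Fin 3, monomial (ex i j a b) ((τ.g i j).coeff (ex i j a b)) := by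
  classical
  refine MvPolynomial.ext _ _ fun m => ?_
  simp only [coeff_sum, coeff_monomial]
  by_cases hm : m ∈ (τ.g i j).support
  · have hi : m i ≤ 2 := (monomial_le_degreeOf i hm).trans (τ.degree_two i j)
    have hj : m j ≤ 2 := by
      have h1 : m ∈ (τ.g j i).support := by
        rw [mem_support_iff] at hm ⊢
        rw [τ.skew i j, coeff_neg]
        exact neg_ne_zero.2 hm
      exact (monomial_le_degreeOf j h1).trans (τ.degree_two j i)
    have hk : ∀ k, k ≠ i → k ≠ j → m k = 0 := fun k h1 h2 =>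
      Nat.le_zero.1 ((monomial_le_degreeOf k hm).trans (τ.degree_zero i j k h1 h2).le)
    have he : ex i j ⟨m i, by omega⟩ ⟨m j, by omega⟩ = m := by
      refine Finsupp.ext fun k => ?_
      by_cases h1 : k = i
      · subst h1
        exact ex_i hij _ _
      · by_cases h2 : k = j
        · subst h2
          exact ex_j hij _ _
        · rw [hk k h1 h2, ex, Finsupp.add_apply, Finsupp.single_eq_of_ne h1,
            Finsupp.single_eq_of_ne h2, add_zero]
    rw [Finset.sum_eq_single (⟨m i, by omega⟩ : Fin 3), Finset.sum_eq_single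
      (⟨m j, by omega⟩ : Fin 3), he, if_pos rfl]
    · intro b _ hb
      rw [if_neg]
      intro h
      apply hb
      apply Fin.ext
      have := DFunLike.congr_fun h j
      rw [ex_j hij] at this
      exact this
    · intro h
      exact absurd (Finset.mem_univ _) h
    · intro a _ ha
      refine Finset.sum_eq_zero fun b _ => ?_
      rw [if_neg]
      intro h
      apply ha
      apply Fin.ext
      have := DFunLike.congr_fun h i
      rw [ex_i hij] at this
      exact this
    · intro h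
      exact absurd (Finset.mem_univ _) h
  · rw [notMem_support_iff.1 hm]
    symm
    refine Finset.sum_eq_zero fun a _ => Finset.sum_eq_zero fun b _ => ?_
    split_ifs with h
    · rw [h, notMem_support_iff.1 hm]
    · rfl

/-- the coefficients -/
noncomputable def cf (i j : Fin n) (a b : Fin 3) : ℂ :=
  if i = j then 0 else (τ.g i j).coeff (ex i j a b)

theorem cf_skew (i j : Fin n) (a b : Fin 3) : cf τ j i b a = - cf τ i j a b := by
  unfold cf
  by_cases h : i = j
  · rw [if_pos h, if_pos h.symm, neg_zero]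
  · rw [if_neg h, if_neg (Ne.symm h), τ.skew i j, coeff_neg, ex, ex, add_comm]

theorem gform' {i j : Fin n} (hij : i ≠ j) :
    τ.g i j = ∑ a : Fin 3, ∑ b : Fin 3, C (cf τ i j a b) * X i ^ (a : ℕ) * X j ^ (b : ℕ) := by
  conv_lhs => rw [gform τ hij]
  refine Finset.sum_congr rfl fun a _ => Finset.sum_congr rfl fun b _ => ?_
  rw [C_mul_X_pow_eq_monomial, X_pow_eq_monomial, monomial_mul, mul_one, cf, if_neg hij, ex]

theorem pderiv_other {i j l : Fin n} (hli : l ≠ i) (hlj : l ≠ j) : pderiv l (τ.g i j) = 0 := by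
  by_cases hij : i = j
  · rw [hij, g_self, map_zero]
  · rw [gform' τ hij, map_sum]
    refine Finset.sum_eq_zero fun a _ => ?_
    rw [map_sum]
    refine Finset.sum_eq_zero fun b _ => ?_
    simp only [pderiv_mul, pderiv_pow, pderiv_C, pderiv_X_of_ne (Ne.symm hli),
      pderiv_X_of_ne (Ne.symm hlj), mul_zero, zero_mul, add_zero]

/-- the quadratic form in slot `j` -/
noncomputable def qq (i j : Fin n) (u : W) : V := fun b => ev (fun a => cf τ i j a b) u

theorem eval_g {i j : Fin n} (hij : i ≠ j) (e : Fin n → ℂ) :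
    eval e (τ.g i j) = ev (qq τ i j ![1, e i]) ![1, e j] := by
  conv_lhs => rw [gform' τ hij]
  simp only [Fin.sum_univ_three, qq, ev]
  simp
  ring

theorem eval_pderiv_right {i j : Fin n} (hij : i ≠ j) (e : Fin n → ℂ) :
    eval e (pderiv j (τ.g i j)) =
      qq τ i j ![1, e i] 1 + 2 * qq τ i j ![1, e i] 2 * e j := by
  conv_lhs => rw [gform' τ hij]
  simp only [Fin.sum_univ_three, qq, ev]
  simp [Pi.single_eq_of_ne hij]
  ring

theorem eval_pderiv_left {i j : Fin n} (hij : i ≠ j) (e : Fin n → ℂ) :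
    eval e (pderiv i (τ.g i j)) =
      -(qq τ j i ![1, e j] 1 + 2 * qq τ j i ![1, e j] 2 * e i) := by
  rw [← eval_pderiv_right τ hij.symm, τ.skew i j, map_neg, map_neg, neg_neg]

theorem ev_skew (i j : Fin n) (u v : W) :
    ev (qq τ i j u) v + ev (qq τ j i v) u = 0 := by
  simp only [qq, ev, cf_skew τ i j]
  ring

/-- the affine Jacobi identity -/
theorem jac_aff {i j k : Fin n} (hij : i ≠ j) (hik : i ≠ k) (hjk : j ≠ k) (x y z : ℂ) :
    ev (br (qq τ j i ![1, y]) (qq τ k i ![1, z])) ![1, x]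
      + ev (br (qq τ k j ![1, z]) (qq τ i j ![1, x])) ![1, y]
      + ev (br (qq τ i k ![1, x]) (qq τ j k ![1, y])) ![1, z] = 0 := by
  classical
  obtain ⟨e, hi, hj, hk⟩ : ∃ e : Fin n → ℂ, e i = x ∧ e j = y ∧ e k = z := by
    refine ⟨fun l => if l = i then x else if l = j then y else z, ?_, ?_, ?_⟩
    · simp
    · simp [hij.symm]
    · simp [hik.symm, hjk.symm]
  have h := congrArg (eval e) (τ.jacobi i j k)
  rw [map_sum, map_zero, ← Finset.sum_subset (Finset.subset_univ {i, j, k})] at h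
  · rw [Finset.sum_insert (by simp [hij, hik]), Finset.sum_insert (by simp [hjk]),
      Finset.sum_singleton] at h
    simp only [map_add, map_mul, g_self, pderiv_other τ hik.symm hjk.symm,
      pderiv_other τ hij hik, pderiv_other τ hjk hij.symm, mul_zero, add_zero, zero_add,
      eval_pderiv_left τ hij, eval_pderiv_right τ hij, eval_pderiv_left τ hjk,
      eval_pderiv_right τ hjk, eval_pderiv_left τ hik.symm, eval_pderiv_right τ hik.symm,
      eval_g τ hij, eval_g τ hij.symm, eval_g τ hik, eval_g τ hik.symm, eval_g τ hjk,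
      eval_g τ hjk.symm, hi, hj, hk] at h
    have s1 := ev_skew τ i j ![1, x] ![1, y]
    have s2 := ev_skew τ i k ![1, x] ![1, z]
    have s3 := ev_skew τ j k ![1, y] ![1, z]
    simp only [ev, br_apply_zero, br_apply_one, br_apply_two, Matrix.cons_val_zero,
      Matrix.cons_val_one, Matrix.cons_val_fin_one] at h s1 s2 s3 ⊢
    linear_combination h +
      ((qq τ j i ![1, y] 1 + 2 * qq τ j i ![1, y] 2 * x) -
        (qq τ j k ![1, y] 1 + 2 * qq τ j k ![1, y] 2 * z)) * s2 +
      ((qq τ k j ![1, z] 1 + 2 * qq τ k j ![1, z] 2 * y) -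
        (qq τ k i ![1, z] 1 + 2 * qq τ k i ![1, z] 2 * x)) * s1 +
      ((qq τ i k ![1, x] 1 + 2 * qq τ i k ![1, x] 2 * z) -
        (qq τ i j ![1, x] 1 + 2 * qq τ i j ![1, x] 2 * y)) * s3
  · intro l _ hl
    simp only [Finset.mem_insert, Finset.mem_singleton, not_or] at hl
    rw [pderiv_other τ hl.1 hl.2.1, pderiv_other τ hl.2.1 hl.2.2, pderiv_other τ hl.2.2 hl.1,
      mul_zero, mul_zero, mul_zero, add_zero, add_zero, map_zero]

/-- functions which are quadratic forms -/
def Qf (H : W → ℂ) : Prop := ∃ Q : V, ∀ u, H u = ev Q u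

theorem Qf.zero_of {H : W → ℂ} (h : Qf H) (h0 : ∀ x : ℂ, H ![1, x] = 0) (u : W) : H u = 0 := by
  obtain ⟨Q, hQ⟩ := h
  have e : ∀ x : ℂ, Q 0 + Q 1 * x + Q 2 * x ^ 2 = 0 := by
    intro x
    have := h0 x
    rw [hQ] at this
    rw [← ev_pt_some]
    exact this
  have h1 := e 0
  have h2 := e 1
  have h3 := e (-1)
  have q0 : Q 0 = 0 := by linear_combination h1
  have q2 : Q 2 = 0 := by linear_combination (h2 + h3) / 2 - h1
  have q1 : Q 1 = 0 := by linear_combination (h2 - h3) / 2
  rw [hQ, ev, q0, q1, q2]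
  ring

/-- the Jacobi expression -/
theorem qf_left (p : V) (i j : Fin n) (v : W) : Qf fun u => ev (br p (qq τ i j u)) v := by
  refine ⟨fun a => ev (br p (fun b => cf τ i j a b)) v, fun u => ?_⟩
  simp only [ev, br_apply_zero, br_apply_one, br_apply_two, qq]
  ring

theorem qf_right (p : V) (i j : Fin n) (v : W) : Qf fun u => ev (br (qq τ i j u) p) v := by
  refine ⟨fun a => ev (br (fun b => cf τ i j a b) p) v, fun u => ?_⟩
  simp only [ev, br_apply_zero, br_apply_one, br_apply_two, qq]
  ring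

theorem Qf.add {H H' : W → ℂ} (h : Qf H) (h' : Qf H') : Qf fun u => H u + H' u := by
  obtain ⟨Q, hQ⟩ := h
  obtain ⟨Q', hQ'⟩ := h'
  refine ⟨Q + Q', fun u => ?_⟩
  rw [ev_add, ← hQ, ← hQ']

theorem jac_all {i j k : Fin n} (hij : i ≠ j) (hik : i ≠ k) (hjk : j ≠ k) (u v w : W) :
    ev (br (qq τ j i v) (qq τ k i w)) u
      + ev (br (qq τ k j w) (qq τ i j u)) v
      + ev (br (qq τ i k u) (qq τ j k v)) w = 0 := by
  have h1 : ∀ (u : W) (y z : ℂ), ev (br (qq τ j i ![1, y]) (qq τ k i ![1, z])) u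
      + ev (br (qq τ k j ![1, z]) (qq τ i j u)) ![1, y]
      + ev (br (qq τ i k u) (qq τ j k ![1, y])) ![1, z] = 0 := by
    intro u y z
    refine Qf.zero_of (H := fun u => ev (br (qq τ j i ![1, y]) (qq τ k i ![1, z])) u
      + ev (br (qq τ k j ![1, z]) (qq τ i j u)) ![1, y]
      + ev (br (qq τ i k u) (qq τ j k ![1, y])) ![1, z]) ?_ (fun x => ?_) u
    · exact (Qf.add ⟨_, fun u => rfl⟩ (qf_left τ _ i j _)).add (qf_right τ _ i k _)
    · exact jac_aff τ hij hik hjk x y z
  have h2 : ∀ (u v : W) (z : ℂ), ev (br (qq τ j i v) (qq τ k i ![1, z])) u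
      + ev (br (qq τ k j ![1, z]) (qq τ i j u)) v
      + ev (br (qq τ i k u) (qq τ j k v)) ![1, z] = 0 := by
    intro u v z
    refine Qf.zero_of (H := fun v => ev (br (qq τ j i v) (qq τ k i ![1, z])) u
      + ev (br (qq τ k j ![1, z]) (qq τ i j u)) v
      + ev (br (qq τ i k u) (qq τ j k v)) ![1, z]) ?_ (fun y => h1 u y z) v
    exact (Qf.add (qf_right τ _ j i _) ⟨_, fun u => rfl⟩).add (qf_left τ _ j k _)
  refine Qf.zero_of (H := fun w => ev (br (qq τ j i v) (qq τ k i w)) u
    + ev (br (qq τ k j w) (qq τ i j u)) v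
    + ev (br (qq τ i k u) (qq τ j k v)) w) ?_ (fun z => h2 u v z) w
  exact (Qf.add (qf_left τ _ k i _) (qf_right τ _ k j _)).add ⟨_, fun u => rfl⟩

/-- the Poisson structure in coefficients -/
noncomputable def toPS : PS (Fin n) where
  c := cf τ
  skew := cf_skew τ
  jac _ _ _ hij hik hjk u v w := jac_all τ hij hik hjk u v w

end CONVM

open CONVM in
theorem specCONV : SpecCONV := by
  intro n τ
  refine ⟨toPS τ, fun u => Matrix.ext fun i j => ?_⟩
  change ev (fun b => ev (fun a => cf τ i j a b) (u i)) (u j) = _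
  by_cases hij : i = j
  · subst hij
    simp only [Poisson.mat, g_self, MvPolynomial.coeff_zero, zero_mul, Finset.sum_const_zero, cf,
      if_true, ev]
    simp
  · simp only [Poisson.mat, cf, if_neg hij, ev, ex, Fin.sum_univ_three]
    simp
    ring

end Pool.Agent.Lib.MPc9b009
end

section
/-!
# MP_c9b009_ag: module FIN
-/
namespace Pool.Agent.Lib.MPc9b009

open scoped LinearAlgebra.Projectivization

namespace FINM

lemma M_smul {ι : Type} [Fintype ι] [DecidableEq ι] (P : PS ι) (u : ι → W) (t : ι → ℂ) :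
    P.M (fun i => t i • u i)
      = Matrix.diagonal (fun i => t i ^ 2) * P.M u * Matrix.diagonal (fun i => t i ^ 2) := by
  ext i j
  simp only [PS.M, Matrix.mul_diagonal, Matrix.diagonal_mul]
  rw [P.F_smul_left, P.F_smul_right]
  ring

lemma rank_smul_le {ι : Type} [Fintype ι] [DecidableEq ι] (P : PS ι) (u : ι → W) (t : ι → ℂ) :
    (P.M (fun i => t i • u i)).rank ≤ (P.M u).rank := by
  rw [M_smul]
  exact (Matrix.rank_mul_le_left _ _).trans (Matrix.rank_mul_le_right _ _)

end FINM

open FINM in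
theorem specFIN (hIND : SpecIND) (hCONV : SpecCONV) : Statement := by
  intro n τ s hs _ I hI y
  obtain ⟨m, hm⟩ := hs
  obtain ⟨P, hP⟩ := hCONV τ
  obtain ⟨u, hu0, hu1, hu2⟩ := hIND m P I (by omega) (fun i => (y i).rep)
    (fun i => (y i).rep_nonzero)
  refine ⟨fun i => Projectivization.mk ℂ (u i) (hu0 i), ?_, ?_⟩
  · have hr : ∀ i, ∃ t : ℂ, t • u i = (Projectivization.mk ℂ (u i) (hu0 i)).rep := by
      intro i
      obtain ⟨a, ha⟩ := Projectivization.exists_smul_eq_mk_rep ℂ (u i) (hu0 i)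
      exact ⟨a, ha⟩
    choose t ht using hr
    show (τ.mat fun i => (Projectivization.mk ℂ (u i) (hu0 i)).rep).rank ≤ s
    have h1 : (fun i => (Projectivization.mk ℂ (u i) (hu0 i)).rep) = fun i => t i • u i := by
      funext i
      exact (ht i).symm
    rw [h1, ← hP]
    exact (rank_smul_le P u t).trans (by omega)
  · intro i hi
    have h1 := hu1 i hi
    have h2 : Projectivization.mk ℂ (u i) (hu0 i)
        = Projectivization.mk ℂ (y i).rep (y i).rep_nonzero := by
      congr 1
    exact h2.trans (Projectivization.mk_rep _)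

end Pool.Agent.Lib.MPc9b009
end

section
/-!
# MP_c9b009_ag: all modules together
-/
namespace Pool.Agent.Lib.MPc9b009

theorem zer : SpecZER := specZER (specEXT specCR specDET specREL) (specSEL (specOPP specPOL))

theorem ind : SpecIND :=
  specIND (specBAD specNDZ) zer specRED specRNK specTOP specDEN specOPN

theorem statement : Statement := specFIN ind specCONV

end Pool.Agent.Lib.MPc9b009
end

section
/-!
# MP_c9b009_ag: irreducible components of the degeneracy loci and their dimensions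
-/
namespace Pool.Agent.Lib.MPc9b009

open MvPolynomial
open scoped LinearAlgebra.Projectivization

namespace DIMM

theorem exists_prime {σ κ : Type} (I : Ideal (MvPolynomial σ ℂ)) (f : κ → MvPolynomial σ ℂ)
    (h : ∀ G : MvPolynomial κ ℂ, aeval f G ∈ I → G = 0) :
    ∃ P ∈ I.minimalPrimes, AlgebraicIndependent ℂ (fun k => Ideal.Quotient.mk P (f k)) := by
  classical
  let φ : MvPolynomial κ ℂ →* MvPolynomial σ ℂ :=
    ((aeval f : MvPolynomial κ ℂ →ₐ[ℂ] MvPolynomial σ ℂ) : MvPolynomial κ ℂ →+* _).toMonoidHom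
  have hφ : ∀ G, φ G = aeval f G := fun _ => rfl
  have hd : Disjoint (I : Set (MvPolynomial σ ℂ))
      (((nonZeroDivisors (MvPolynomial κ ℂ)).map φ : Submonoid (MvPolynomial σ ℂ)) :
        Set (MvPolynomial σ ℂ)) := by
    rw [Set.disjoint_left]
    rintro x hx ⟨G, hG, rfl⟩
    exact nonZeroDivisors.ne_zero hG (h G hx)
  obtain ⟨Q, hQ, hIQ, hQM⟩ := Ideal.exists_le_prime_disjoint _ _ hd
  obtain ⟨P, hP, hPQ⟩ := Ideal.exists_minimalPrimes_le hIQ
  refine ⟨P, hP, ?_⟩
  rw [AlgebraicIndependent, injective_iff_map_eq_zero]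
  intro G hG
  by_contra h0
  have h1 : aeval f G ∈ P := by
    rw [← Ideal.Quotient.eq_zero_iff_mem]
    rw [← hG]
    have : (Ideal.Quotient.mkₐ ℂ P) (aeval f G)
        = aeval (fun k => Ideal.Quotient.mk P (f k)) G := by
      rw [← AlgHom.comp_apply, comp_aeval]
      rfl
    exact this
  refine Set.disjoint_left.mp hQM (hPQ h1) ⟨G, ?_, hφ G⟩
  exact mem_nonZeroDivisors_of_ne_zero h0

/-- the values of the `σ`-th coordinates outside `I` and of all coordinates in `I` -/
noncomputable def fam {n : ℕ} (I : Finset (Fin n)) (σ : Fin n → Fin 2) :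
    ({k : Fin n // k ∉ I} ⊕ (I × Fin 2)) → MvPolynomial (Fin n × Fin 2) ℂ
  | Sum.inl k => X (k.1, σ k.1)
  | Sum.inr p => X (p.1.1, p.2)

theorem exists_sigma {n : ℕ} (τ : Poisson n) (m : ℕ) (I : Finset (Fin n))
    (hI : I.card = 2 * m + 1) :
    ∃ σ : Fin n → Fin 2, ∀ G : MvPolynomial ({k : Fin n // k ∉ I} ⊕ (I × Fin 2)) ℂ,
      aeval (fam I σ) G ∈ τ.ideal (2 * m) → G = 0 := by
  classical
  by_contra hcon
  push Not at hcon
  choose G hG hG0 using hcon
  obtain ⟨P, hP⟩ := specCONV τ
  -- the polynomials with coefficients in the polynomials in the coordinates of `I`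
  let H : (Fin n → Fin 2) → MvPolynomial {k : Fin n // k ∉ I} (MvPolynomial (I × Fin 2) ℂ) :=
    fun σ => sumAlgEquiv ℂ _ _ (G σ)
  have hH0 : ∀ σ, H σ ≠ 0 := by
    intro σ h
    exact hG0 σ (by simpa [H] using h)
  have hc : ∀ σ, ∃ a, coeff a (H σ) ≠ 0 := fun σ => ne_zero_iff.mp (hH0 σ)
  choose a ha using hc
  let g : MvPolynomial (I × Fin 2) ℂ := (∏ σ, coeff (a σ) (H σ)) * ∏ i : I, X (i, 0)
  have hg : g ≠ 0 := by
    refine mul_ne_zero (Finset.prod_ne_zero_iff.mpr fun σ _ => ha σ)
      (Finset.prod_ne_zero_iff.mpr fun i _ => X_ne_zero _)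
  obtain ⟨y, hy⟩ : ∃ y, eval y g ≠ 0 := by
    by_contra hno
    push Not at hno
    exact hg (MvPolynomial.funext fun x => by simpa using hno x)
  simp only [g, map_mul, map_prod, eval_X] at hy
  have hy1 : ∀ σ, eval y (coeff (a σ) (H σ)) ≠ 0 := fun σ =>
    Finset.prod_ne_zero_iff.mp (left_ne_zero_of_mul hy) σ (Finset.mem_univ _)
  have hy2 : ∀ i : I, y (i, 0) ≠ 0 := fun i =>
    Finset.prod_ne_zero_iff.mp (right_ne_zero_of_mul hy) i (Finset.mem_univ _)
  obtain ⟨u, hu0, hu1, hu2⟩ := ind m P I hI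
    (fun i => if hi : i ∈ I then (fun j => y (⟨i, hi⟩, j)) else pt none) (by
      intro i
      by_cases hi : i ∈ I
      · simp only [hi, dite_true]
        intro h
        exact hy2 ⟨i, hi⟩ (congrFun h 0)
      · simp only [hi, dite_false]
        exact pt_ne_zero none)
  have hσ : ∀ k, ∃ j : Fin 2, u k j ≠ 0 := fun k => Function.ne_iff.mp (hu0 k)
  choose σ hσ using hσ
  let H' : MvPolynomial {k : Fin n // k ∉ I} ℂ := MvPolynomial.map (eval y) (H σ)
  have hH' : H' ≠ 0 := by
    intro h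
    have := congrArg (coeff (a σ)) h
    rw [coeff_map, coeff_zero] at this
    exact hy1 σ this
  obtain ⟨t, ht0, ht⟩ : ∃ t : {k : Fin n // k ∉ I} → ℂ, (∀ k, t k ≠ 0) ∧ eval t H' ≠ 0 := by
    by_contra hno
    push Not at hno
    refine hH' (MvPolynomial.funext_set (fun _ => {z : ℂ | z ≠ 0}) ?_ ?_)
    · intro _
      exact (Set.finite_singleton (0 : ℂ)).infinite_compl
    · intro x hx
      rw [map_zero]
      exact hno x fun k => hx k (Set.mem_univ _)
  -- the point
  let u' : Fin n → W := fun k =>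
    if hk : k ∉ I then (t ⟨k, hk⟩ / u k (σ k)) • u k else u k
  have hu'0 : ∀ k, u' k ≠ 0 := by
    intro k
    by_cases hk : k ∉ I
    · simp only [u']
      rw [dif_pos hk]
      exact smul_ne_zero (div_ne_zero (ht0 _) (hσ k)) (hu0 k)
    · simp only [u']
      rw [dif_neg hk]
      exact hu0 k
  have hrank : (τ.mat u').rank ≤ 2 * m := by
    have h1 : u' = fun k => (if hk : k ∉ I then t ⟨k, hk⟩ / u k (σ k) else 1) • u k := by
      funext k
      by_cases hk : k ∉ I
      · simp only [u']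
        rw [dif_pos hk, dif_pos hk]
      · simp only [u']
        rw [dif_neg hk, dif_neg hk, one_smul]
    rw [h1, ← hP]
    exact (FINM.rank_smul_le P u _).trans hu2
  have hv := hG σ (fun p => u' p.1 p.2) ⟨fun i => hu'0 i, hrank⟩
  apply ht
  rw [← hv]
  have e1 : ∀ p : {k : Fin n // k ∉ I} ⊕ (I × Fin 2),
      aeval (fun p : Fin n × Fin 2 => u' p.1 p.2) (fam I σ p) = Sum.elim t y p := by
    rintro (k | p)
    · simp only [fam, aeval_X, Sum.elim_inl, u']
      rw [dif_pos k.2]
      simp only [Pi.smul_apply, smul_eq_mul]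
      rw [div_mul_cancel₀ _ (hσ k.1)]
    · simp only [fam, aeval_X, Sum.elim_inr, u']
      rw [dif_neg (by simp), hu1 p.1.1 p.1.2]
      simp only [p.1.2, dite_true]
  have e2 : aeval (fun p : Fin n × Fin 2 => u' p.1 p.2) (aeval (fam I σ) (G σ))
      = aeval (Sum.elim t y) (G σ) := by
    rw [← AlgHom.comp_apply, comp_aeval]
    congr 2
    funext p
    exact e1 p
  rw [e2]
  have e3 : ∀ F : MvPolynomial ({k : Fin n // k ∉ I} ⊕ (I × Fin 2)) ℂ,
      eval t (MvPolynomial.map (eval y) (sumAlgEquiv ℂ _ _ F)) = aeval (Sum.elim t y) F := by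
    intro F
    induction F using MvPolynomial.induction_on with
    | C r => rw [sumAlgEquiv_C_inl, map_C, eval_C, eval_C, aeval_C]; rfl
    | add F1 F2 h1 h2 => rw [map_add, map_add, map_add, map_add, h1, h2]
    | mul_X F1 p h1 =>
      rw [map_mul, map_mul, map_mul, map_mul, h1, aeval_X]
      rcases p with k | p
      · rw [sumAlgEquiv_X_inl, map_X, eval_X, Sum.elim_inl]
      · rw [sumAlgEquiv_X_inr, map_C, eval_X, eval_C, Sum.elim_inr]
  exact e3 (G σ)

end DIMM

open DIMM in
/-- For every set `I` of `s + 1` factors, `X_{≤ s}` has an irreducible component of dimension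
greater than `s` on which the coordinates of the factors in `I` are algebraically independent. -/
theorem component (n : ℕ) (τ : Poisson n) (s : ℕ) (hs : Even s) (_ : s < n)
    (I : Finset (Fin n)) (hI : I.card = s + 1) :
    ∃ P ∈ (τ.ideal s).minimalPrimes,
      AlgebraicIndependent ℂ (fun p : I × Fin 2 => Ideal.Quotient.mk P (X (p.1.1, p.2))) ∧
      ((n + (s + 1) : ℕ) : Cardinal) ≤ Algebra.trdeg ℂ (MvPolynomial (Fin n × Fin 2) ℂ ⧸ P) := by
  classical
  obtain ⟨m, hm⟩ := hs
  have hm' : s = 2 * m := by omega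
  subst hm'
  obtain ⟨σ, hσ⟩ := exists_sigma τ m I hI
  obtain ⟨P, hP, hPind⟩ := exists_prime _ _ hσ
  refine ⟨P, hP, ?_, ?_⟩
  · exact hPind.comp Sum.inr Sum.inr_injective
  · have h1 := hPind.lift_cardinalMk_le_trdeg
    have h2 : Cardinal.mk ({k : Fin n // k ∉ I} ⊕ (I × Fin 2)) = ((n + (2 * m + 1) : ℕ)) := by
      rw [Cardinal.mk_fintype, Fintype.card_sum, Fintype.card_prod, Fintype.card_fin,
        Fintype.card_coe, Fintype.card_subtype_compl, Fintype.card_fin, Fintype.card_coe]
      have := I.card_le_univ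
      rw [Fintype.card_fin] at this
      congr 1
      omega
    rw [h2] at h1
    simpa using h1

end Pool.Agent.Lib.MPc9b009
end
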