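import Mathlib

/-!
# MP_c9b009_ag: Poisson structures on products of projective lines, definitions

`br`, `ev`: coefficient vectors `q = (q₀, q₁, q₂)` of binary quadratic forms
`q₀ u₀² + q₁ u₀ u₁ + q₂ u₁²` (in the affine coordinate `x = u₁/u₀`: `q₀ + q₁ x + q₂ x²`), and the
bracket `p' q - p q'`.

A Poisson structure on the product of the projective lines with index set `ι` is given by the
coefficients `c i j a b` of `{x_i, x_j} = Σ_{a,b ≤ 2} c i j a b x_i^a x_j^b`.
-/

namespace Pool.Agent.Lib.MPc9b009

/-- Coefficient vectors of binary quadratic forms. -/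
abbrev V := Fin 3 → ℂ

/-- Vectors representing points of the projective line. -/
abbrev W := Fin 2 → ℂ

/-- The bracket `p' q - p q'` of quadratic polynomials. -/
def br (p q : V) : V :=
  ![p 1 * q 0 - p 0 * q 1, 2 * (p 2 * q 0 - p 0 * q 2), p 2 * q 1 - p 1 * q 2]

/-- The value of a quadratic form at a vector. -/
def ev (q : V) (u : W) : ℂ := q 0 * u 0 ^ 2 + q 1 * (u 0 * u 1) + q 2 * u 1 ^ 2

/-- A Poisson structure on the product of projective lines indexed by `ι`, in coefficients. -/
structure PS (ι : Type) where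
  /-- the coefficients of `{x_i, x_j}` -/
  c : ι → ι → Fin 3 → Fin 3 → ℂ
  skew : ∀ i j a b, c j i b a = - c i j a b
  /-- the Jacobi identity, homogenised, evaluated at `u` (slot `i`), `v` (slot `j`),
  `w` (slot `k`) -/
  jac : ∀ i j k, i ≠ j → i ≠ k → j ≠ k → ∀ u v w : W,
    ev (br (fun b => ev (fun a => c j i a b) v) (fun b => ev (fun a => c k i a b) w)) u
      + ev (br (fun b => ev (fun a => c k j a b) w) (fun b => ev (fun a => c i j a b) u)) v
      + ev (br (fun b => ev (fun a => c i k a b) u) (fun b => ev (fun a => c j k a b) v)) w = 0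

/-- The quadratic form in slot `k` obtained from `{x_i, x_k}` by plugging `u` into slot `i`. -/
def PS.q {ι : Type} (P : PS ι) (i k : ι) (u : W) : V := fun b => ev (fun a => P.c i k a b) u

/-- The value of `{x_i, x_j}` at `(u, v)`. -/
def PS.F {ι : Type} (P : PS ι) (i j : ι) (u v : W) : ℂ := ev (P.q i j u) v

/-- The matrix of the Poisson structure at a point. -/
def PS.M {ι : Type} (P : PS ι) (u : ι → W) : Matrix ι ι ℂ := fun i j => P.F i j (u i) (u j)

/-- The vector representing a point of the projective line. -/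
def pt : Option ℂ → W
  | none => ![0, 1]
  | some x => ![1, x]

/-- The weight at a zero of a quadratic vector field: the derivative in the affine coordinate
(minus the derivative in the coordinate `1/x` at infinity). -/
def wt (q : V) : Option ℂ → ℂ
  | none => - q 1
  | some x => q 1 + 2 * q 2 * x

/-- the derivative of `{x_i, x_j}` with respect to `x_j` at the finite point `(x, y)` -/
def PS.Dv {ι : Type} (P : PS ι) (i j : ι) (x y : ℂ) : ℂ := wt (P.q i j (pt (some x))) (some y)

/-- minus the Jacobian determinant of `({x_i,x_j}, {x_i,x_l}, {x_j,x_l})` with respect to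
`(x_i, x_j, x_l)` at the finite point `(x, y, z)` -/
def PS.jd {ι : Type} (P : PS ι) (i j l : ι) (x y z : ℂ) : ℂ :=
  P.Dv i j x y * P.Dv j l y z * P.Dv l i z x - P.Dv j i y x * P.Dv l j z y * P.Dv i l x z

/-- A countable set of points of the projective line that contains infinity, the coordinates of
the nondegenerate zeros of the triple systems, and is closed under solving
`{x_i, x_k}(b, ·) = 0` for `b` in the set. -/
def PS.Bad {ι : Type} (P : PS ι) (B : Set (Option ℂ)) : Prop :=
  B.Countable ∧ none ∈ B ∧
    (∀ i k b a, b ∈ B → P.q i k (pt b) ≠ 0 → ev (P.q i k (pt b)) (pt a) = 0 → a ∈ B) ∧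
    (∀ i j l x y z, P.F i j (pt (some x)) (pt (some y)) = 0 →
      P.F i l (pt (some x)) (pt (some z)) = 0 → P.F j l (pt (some y)) (pt (some z)) = 0 →
      P.jd i j l x y z ≠ 0 → some x ∈ B)

/-! ### Basic lemmas -/

@[simp] lemma pt_none : pt none = ![0, 1] := rfl
@[simp] lemma pt_some (x : ℂ) : pt (some x) = ![1, x] := rfl

lemma pt_ne_zero (a : Option ℂ) : pt a ≠ 0 := by
  cases a with
  | none => intro h; simpa using congrFun h 1
  | some x => intro h; simpa using congrFun h 0

lemma ev_pt_none (q : V) : ev q (pt none) = q 2 := by simp [ev]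
lemma ev_pt_some (q : V) (x : ℂ) : ev q (pt (some x)) = q 0 + q 1 * x + q 2 * x ^ 2 := by
  simp [ev]

lemma ev_smul_right (q : V) (t : ℂ) (u : W) : ev q (t • u) = t ^ 2 * ev q u := by
  simp only [ev, Pi.smul_apply, smul_eq_mul]; ring

lemma ev_add (p q : V) (u : W) : ev (p + q) u = ev p u + ev q u := by
  simp only [ev, Pi.add_apply]; ring

lemma ev_sub (p q : V) (u : W) : ev (p - q) u = ev p u - ev q u := by
  simp only [ev, Pi.sub_apply]; ring

lemma ev_smul (t : ℂ) (q : V) (u : W) : ev (t • q) u = t * ev q u := by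
  simp only [ev, Pi.smul_apply, smul_eq_mul]; ring

lemma ev_neg (q : V) (u : W) : ev (-q) u = - ev q u := by
  simp only [ev, Pi.neg_apply]; ring

@[simp] lemma ev_zero (u : W) : ev 0 u = 0 := by simp [ev]

lemma br_apply_zero (p q : V) : br p q 0 = p 1 * q 0 - p 0 * q 1 := by simp [br]
lemma br_apply_one (p q : V) : br p q 1 = 2 * (p 2 * q 0 - p 0 * q 2) := by simp [br]
lemma br_apply_two (p q : V) : br p q 2 = p 2 * q 1 - p 1 * q 2 := by simp [br]

lemma br_add_left (p p' q : V) : br (p + p') q = br p q + br p' q := by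
  ext t; fin_cases t <;> simp [br] <;> ring

lemma br_sub_left (p p' q : V) : br (p - p') q = br p q - br p' q := by
  ext t; fin_cases t <;> simp [br] <;> ring

lemma br_smul_left (s : ℂ) (p q : V) : br (s • p) q = s • br p q := by
  ext t; fin_cases t <;> simp [br] <;> ring

lemma br_add_right (p q q' : V) : br p (q + q') = br p q + br p q' := by
  ext t; fin_cases t <;> simp [br] <;> ring

lemma br_sub_right (p q q' : V) : br p (q - q') = br p q - br p q' := by
  ext t; fin_cases t <;> simp [br] <;> ring

lemma br_smul_right (s : ℂ) (p q : V) : br p (s • q) = s • br p q := by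
  ext t; fin_cases t <;> simp [br] <;> ring

lemma br_comm (p q : V) : br q p = - br p q := by
  ext t; fin_cases t <;> simp [br] <;> ring

lemma br_self (p : V) : br p p = 0 := by
  ext t; fin_cases t <;> simp [br] <;> ring

/-- two quadratic forms with the same values are equal -/
lemma ext_ev {p q : V} (h : ∀ u : W, ev p u = ev q u) : p = q := by
  have h0 := h ![1, 0]
  have h1 := h ![1, 1]
  have h2 := h ![0, 1]
  simp [ev] at h0 h1 h2
  ext t; fin_cases t
  · simpa using h0
  · simp only [Fin.mk_one]
    rw [h0, h2] at h1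
    simpa using h1
  · simpa using h2

/-- every nonzero vector is a multiple of the vector of a point -/
lemma exists_pt (u : W) (hu : u ≠ 0) : ∃ (a : Option ℂ) (t : ℂ), t ≠ 0 ∧ u = t • pt a := by
  by_cases h0 : u 0 = 0
  · refine ⟨none, u 1, ?_, ?_⟩
    · intro h1; apply hu; ext t; fin_cases t <;> simp [h0, h1]
    · ext t; fin_cases t <;> simp [h0]
  · refine ⟨some (u 1 / u 0), u 0, h0, ?_⟩
    ext t; fin_cases t
    · simp
    · simp only [pt_some, Pi.smul_apply, smul_eq_mul, Fin.mk_one, Matrix.cons_val_one,
        Matrix.cons_val_fin_one]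
      field_simp

/-- the value of the bracket at a zero of the first form -/
lemma ev_br_of_left (p q : V) (a : Option ℂ) (h : ev p (pt a) = 0) :
    ev (br p q) (pt a) = wt p a * ev q (pt a) := by
  cases a with
  | none =>
    rw [ev_pt_none] at h ⊢
    rw [ev_pt_none, br_apply_two, h]; simp [wt]
  | some x =>
    rw [ev_pt_some] at h ⊢
    rw [ev_pt_some, br_apply_zero, br_apply_one, br_apply_two]
    simp only [wt]
    linear_combination (-(q 1 + 2 * q 2 * x)) * h

/-- the value of the bracket at a zero of the second form -/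
lemma ev_br_of_right (p q : V) (a : Option ℂ) (h : ev q (pt a) = 0) :
    ev (br p q) (pt a) = - (wt q a * ev p (pt a)) := by
  rw [br_comm q p, ev_neg, ev_br_of_left q p a h]

/-- the three term identity for the bracket and the values at one vector -/
lemma ev_br_cycle (p q r : V) (u : W) :
    ev p u * ev (br q r) u + ev q u * ev (br r p) u + ev r u * ev (br p q) u = 0 := by
  simp only [ev, br_apply_zero, br_apply_one, br_apply_two]; ring

lemma PS.F_skew {ι : Type} (P : PS ι) (i j : ι) (u v : W) : P.F j i v u = - P.F i j u v := by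
  simp only [PS.F, PS.q, ev]
  simp only [P.skew i j]
  ring

lemma PS.F_self {ι : Type} (P : PS ι) (i : ι) (u : W) : P.F i i u u = 0 := by
  have h := P.F_skew i i u u
  linear_combination (1 / 2 : ℂ) * h

lemma PS.F_smul_left {ι : Type} (P : PS ι) (i j : ι) (t : ℂ) (u v : W) :
    P.F i j (t • u) v = t ^ 2 * P.F i j u v := by
  rw [← neg_neg (P.F i j (t • u) v), ← P.F_skew i j, PS.F, ev_smul_right, ← PS.F, P.F_skew i j]
  ring

lemma PS.F_smul_right {ι : Type} (P : PS ι) (i j : ι) (t : ℂ) (u v : W) :
    P.F i j u (t • v) = t ^ 2 * P.F i j u v := by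
  rw [PS.F, ev_smul_right, ← PS.F]

/-- the Jacobi identity in terms of `PS.q` -/
lemma PS.jacobi {ι : Type} (P : PS ι) (i j k : ι) (hij : i ≠ j) (hik : i ≠ k) (hjk : j ≠ k)
    (u v w : W) :
    ev (br (P.q j i v) (P.q k i w)) u + ev (br (P.q k j w) (P.q i j u)) v
      + ev (br (P.q i k u) (P.q j k v)) w = 0 :=
  P.jac i j k hij hik hjk u v w

end Pool.Agent.Lib.MPc9b009
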