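import Mathlib

/-!
# MP_c9b009_ag: Poisson structures on `(ℙ¹)ⁿ`, definitions used in the statement
-/

namespace Pool.Agent.Lib.MPc9b009

open MvPolynomial

/-- A Poisson structure on `(ℙ¹)ⁿ` over `ℂ`, written in the affine coordinates `x_1, …, x_n`: the
bivector field `τ = Σ_{i<j} g i j ∂_i ∧ ∂_j`. Since `Λ² T` is the direct sum of the line bundles
with degree `2` in the factors `i` and `j` and degree `0` in the other factors (`i < j`), the
bivector fields on `(ℙ¹)ⁿ` are the ones with `g i j` a polynomial of degree at most `2` in `x_i`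
and in `x_j` that does not involve the other coordinates. The last condition is the Jacobi
identity for the bracket `{x_i, x_j} = g i j` of the coordinate functions, where
`{f, h} = Σ_{l, m} g l m (∂f/∂x_l) (∂h/∂x_m)`. -/
structure Poisson (n : ℕ) where
  /-- the bracket `{x_i, x_j}` -/
  g : Fin n → Fin n → MvPolynomial (Fin n) ℂ
  skew : ∀ i j, g j i = - g i j
  degree_two : ∀ i j, (g i j).degreeOf i ≤ 2
  degree_zero : ∀ i j k, k ≠ i → k ≠ j → (g i j).degreeOf k = 0
  jacobi : ∀ i j k,
    ∑ l, (g l k * pderiv l (g i j) + g l i * pderiv l (g j k) + g l j * pderiv l (g k i)) = 0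

/-- The matrix of `τ` at the point of `(ℙ¹)ⁿ` whose `i`-th coordinate has the homogeneous
coordinates `u i = (u i 0 : u i 1)`, `x_i = u i 1 / u i 0` (each `g i j` is homogenised to
bidegree `(2, 2)`). -/
noncomputable def Poisson.mat {n : ℕ} (τ : Poisson n) (u : Fin n → (Fin 2 → ℂ)) :
    Matrix (Fin n) (Fin n) ℂ := fun i j =>
  ∑ a : Fin 3, ∑ b : Fin 3,
    (τ.g i j).coeff (Finsupp.single i (a : ℕ) + Finsupp.single j (b : ℕ))
      * (u i 0 ^ (2 - (a : ℕ)) * u i 1 ^ (a : ℕ)) * (u j 0 ^ (2 - (b : ℕ)) * u j 1 ^ (b : ℕ))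

/-- The multihomogeneous vanishing ideal of the degeneracy locus `X_{≤ s}`: all polynomials in the
homogeneous coordinates `u_{i 0}, u_{i 1}` (`i < n`) which vanish at the homogeneous coordinates of
all points of `(ℙ¹)ⁿ` at which `τ` has rank at most `s`. Its minimal primes are the ideals of the
irreducible components of `X_{≤ s}`. -/
noncomputable def Poisson.ideal {n : ℕ} (τ : Poisson n) (s : ℕ) :
    Ideal (MvPolynomial (Fin n × Fin 2) ℂ) :=
  vanishingIdeal ℂ {a : Fin n × Fin 2 → ℂ |
    (∀ i, (fun j => a (i, j)) ≠ 0) ∧ (τ.mat fun i j => a (i, j)).rank ≤ s}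

end Pool.Agent.Lib.MPc9b009
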