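import Pool.Agent.Lib.MP_c9b009_ag.Defs

/-!
# MP_c9b009_ag: exact statements of the modules

Module `XYZ` is the file `Pool/Agent/Lib/MP_c9b009_ag/XYZ.lean`, with the theorem
`specXYZ (hABC : SpecABC) ... : SpecXYZ` (other Specs as hypotheses), own lemmas in the namespace
`Pool.Agent.Lib.MPc9b009.XYZM`.
-/

namespace Pool.Agent.Lib.MPc9b009

/-- CR (common root). If the span of the `q i` has dimension `≤ 1` every root of a nonzero `q i`
works. Otherwise `p, q` independent with `r = [p, q]` in their span; `r` is orthogonal to `p` and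
`q` for the form `κ(p, q) = p₁ q₁ - 2 p₀ q₂ - 2 p₂ q₀`, so `κ(r, r) = 0`; `κ(r, r)` is a multiple
of the resultant of `p` and `q`, so `p` and `q` have a common root (all other `q i` are
combinations of them). -/
def SpecCR : Prop := ∀ (κ : Type) (q : κ → V),
  (∀ i j, ∃ α β : ℂ, br (q i) (q j) = α • q i + β • q j) →
  (∀ i j l, ¬ LinearIndependent ℂ ![q i, q j, q l]) →
  ∃ a : Option ℂ, ∀ i, ev (q i) (pt a) = 0

/-- DET. The determinant of `([p,q], [p,r], [q,r])` is `-2 det(p,q,r)²`, and it is the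
determinant of the coefficient matrix times `det(p,q,r)`. -/
def SpecDET : Prop := ∀ (p q r : V) (a1 b1 a2 b2 a3 b3 : ℂ),
  br p q = a1 • p + b1 • q → br p r = a2 • p + b2 • r → br q r = a3 • q + b3 • r →
  LinearIndependent ℂ ![p, q, r] → a1 * a3 * b2 + a2 * b1 * b3 ≠ 0

/-- REL. From `PS.jacobi P i j k` with `u = pt (some x)`, `v = pt (some y)`: the first term is
`wt (P.q j i v) (some x) * P.F k i w u` by `ev_br_of_left`, the second is
`- wt (P.q i j u) (some y) * P.F k j w v` by `ev_br_of_right`; then `F_skew` and `ext_ev`. -/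
def SpecREL : Prop := ∀ {ι : Type} (P : PS ι) (i j k : ι), i ≠ j → i ≠ k → j ≠ k → ∀ x y : ℂ,
  P.F i j (pt (some x)) (pt (some y)) = 0 →
  br (P.q i k (pt (some x))) (P.q j k (pt (some y)))
    = P.Dv j i y x • P.q i k (pt (some x)) - P.Dv i j x y • P.q j k (pt (some y))

/-- NDZ. Nondegenerate zeros of a system of three equations in `ℂ³` are isolated (inverse
function theorem), so there are countably many. `- jd` is the Jacobian determinant:
`∂F_ij/∂y = Dv i j x y`, `∂F_ij/∂x = - Dv j i y x`. -/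
def SpecNDZ : Prop := ∀ {ι : Type} (P : PS ι) (i j l : ι),
  {t : ℂ × ℂ × ℂ | P.F i j (pt (some t.1)) (pt (some t.2.1)) = 0 ∧
    P.F i l (pt (some t.1)) (pt (some t.2.2)) = 0 ∧
    P.F j l (pt (some t.2.1)) (pt (some t.2.2)) = 0 ∧
    P.jd i j l t.1 t.2.1 t.2.2 ≠ 0}.Countable

/-- BAD. Start with `none` and the first coordinates of the nondegenerate zeros of all triple
systems (NDZ), close up under the roots (a nonzero quadratic form has at most two zeros `pt a`). -/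
def SpecBAD : Prop := ∀ {ι : Type} [Countable ι] (P : PS ι), ∃ B : Set (Option ℂ), P.Bad B

/-- EXT. CR for the family `q i k (pt (some (x i)))`, `i ∈ J`: the brackets are given by REL; three
independent members would give `jd i j l ≠ 0` by DET (with `a1 = Dv j i y x`, `b1 = - Dv i j x y`
and so on), so `some (x i) ∈ B`. -/
def SpecEXT : Prop := ∀ {ι : Type} (P : PS ι) (B : Set (Option ℂ)), P.Bad B →
  ∀ (J : Finset ι) (x : ι → ℂ), (∀ i ∈ J, some (x i) ∉ B) →
  (∀ i ∈ J, ∀ j ∈ J, i ≠ j → P.F i j (pt (some (x i))) (pt (some (x j))) = 0) →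
  ∀ k, k ∉ J → ∃ a : Option ℂ, ∀ i ∈ J, ev (P.q i k (pt (some (x i)))) (pt a) = 0

/-- POL. `a'` is the polar point of `a` with respect to `p`, represented by the vector
`(-(p₁ u₀ + 2 p₂ u₁), 2 p₀ u₀ + p₁ u₁)`, `u = pt a` (use `exists_pt`). For `a = none`:
`p₂ ≠ 0`, `q = q₀ + q₁ x`, `[p,q] = μ p` gives `μ = q₁`, `2 p₂ q₀ = p₁ q₁`,
`a' = some (- p₁ / (2 p₂))`. -/
def SpecPOL : Prop := ∀ (p : V) (a : Option ℂ), ev p (pt a) ≠ 0 → ∃ a' : Option ℂ,
  ∀ q : V, ev q (pt a) = 0 → (∃ μ : ℂ, br p q = μ • p) →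
    ev q (pt a') = 0 ∧ wt q a' = - wt q a ∧ (q ≠ 0 → wt q a ≠ 0)

/-- OPP. Let `k, l ∉ J`, `a` a common zero of the `q i k (pt (some (x i)))`, `b` of the
`q i l (pt (some (x i)))`, and `q l i (pt b) = 0` for `i ∈ J`. From `PS.jacobi P i k l` with
`u = pt (some (x i))`, `w = pt b` and `v` arbitrary: `[q l k w, q i k u] = wt (q i l u) b • q l k w`
(the first term vanishes, the third is `wt (q i l u) b * F k l v w`). Evaluate at `pt a` and use
POL with `p = q l k (pt b)`. -/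
def SpecOPP : Prop := ∀ {ι : Type} (P : PS ι) (J : Finset ι) (x : ι → ℂ) (k l : ι),
  k ∉ J → l ∉ J → k ≠ l → ∀ a b : Option ℂ,
  (∀ i ∈ J, ev (P.q i k (pt (some (x i)))) (pt a) = 0) →
  (∀ i ∈ J, ev (P.q i l (pt (some (x i)))) (pt b) = 0) →
  (∀ i ∈ J, P.q l i (pt b) = 0) →
  P.F k l (pt a) (pt b) ≠ 0 →
  (∀ i ∈ J, wt (P.q i k (pt (some (x i)))) a = - wt (P.q i l (pt (some (x i)))) b) ∧
  (∃ a' : Option ℂ, ∀ i ∈ J, ev (P.q i k (pt (some (x i)))) (pt a') = 0 ∧
    wt (P.q i k (pt (some (x i)))) a' = - wt (P.q i k (pt (some (x i)))) a) ∧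
  (∀ i ∈ J, P.q i k (pt (some (x i))) ≠ 0 → wt (P.q i k (pt (some (x i)))) a ≠ 0)

/-- SEL (selection). For `k ∉ J` and a common zero `a` let `ω k a : J → ℂ` be the weights.
Fix a set `Pos` of functions `J → ℂ` containing exactly one of `ω, -ω` for `ω ≠ 0`, and choose
the common zero `p k` with `ω k (p k) ∈ Pos` whenever there is one. If `F k l ≠ 0` at
`(p k, p l)` then by OPP (for `(k, l)` and for `(l, k)`) both weights are nonzero, both signs
occur for `k` and for `l`, so both are in `Pos`, but they are opposite. -/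
def SpecSEL : Prop := ∀ {ι : Type} (P : PS ι) (J : Finset ι) (x : ι → ℂ),
  (∀ k, k ∉ J → ∃ a : Option ℂ, ∀ i ∈ J, ev (P.q i k (pt (some (x i)))) (pt a) = 0) →
  (∀ k, k ∉ J → ∀ a : Option ℂ, (∀ i ∈ J, ev (P.q i k (pt (some (x i)))) (pt a) = 0) →
    ∀ i ∈ J, P.q k i (pt a) = 0) →
  (∀ k, k ∉ J → ∃ i ∈ J, P.q i k (pt (some (x i))) ≠ 0) →
  ∃ p : ι → Option ℂ, (∀ k, k ∉ J → ∀ i ∈ J, ev (P.q i k (pt (some (x i)))) (pt (p k)) = 0) ∧
    ∀ k, k ∉ J → ∀ l, l ∉ J → k ≠ l → P.F k l (pt (p k)) (pt (p l)) = 0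

/-- ZER (existence of zeros over a zero of a coordinate product, in general position). Extend `I`
and `x` to a maximal `J` (with points outside `B`); by maximality the common zeros of EXT are all
in `B`, so `q k i (pt a) = 0` by the closure property (`x i ∉ B` is a root of
`q k i (pt a)`), and not all `q i k (pt (x i))` vanish (`B` is countable); then SEL. -/
def SpecZER : Prop := ∀ {ι : Type} [Finite ι] (P : PS ι) (B : Set (Option ℂ)), P.Bad B →
  ∀ (I : Finset ι) (x : ι → ℂ), (∀ i ∈ I, some (x i) ∉ B) →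
  (∀ i ∈ I, ∀ j ∈ I, i ≠ j → P.F i j (pt (some (x i))) (pt (some (x j))) = 0) →
  ∃ p : ι → Option ℂ, (∀ i ∈ I, p i = some (x i)) ∧
    ∀ i j, i ≠ j → P.F i j (pt (p i)) (pt (p j)) = 0

/-- RED (reduction by two coordinates). `R.c k l p q = P.c k l p q -
((q i k u) p * (q j l v) q - (q i l u) q * (q j k v) p) / F i j u v`; the Jacobi identity for
`(k,l,m)` at `(w₁,w₂,w₃)` is, with `a = F i j u v`, `λ_k = F j k v w₁ / a`,
`μ_k = - F i k u w₁ / a` and so on, the combination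
`J_klm + λ_k J_ilm + μ_k J_jlm + λ_l J_kim + μ_l J_kjm + λ_m J_kli + μ_m J_klj
+ (λ_k μ_l - μ_k λ_l) J_ijm + (λ_k μ_m - μ_k λ_m) J_ilj + (λ_l μ_m - μ_l λ_m) J_kij`
of the Jacobi identities of `P` (slot `i` at `u`, slot `j` at `v`, slots `k,l,m` at
`w₁,w₂,w₃`), up to `ev_br_cycle` and `F_skew`. -/
def SpecRED : Prop := ∀ {ι : Type} (P : PS ι) (i j : ι) (u v : W), i ≠ j → P.F i j u v ≠ 0 →
  ∃ R : PS {k : ι // k ≠ i ∧ k ≠ j}, ∀ (k l : {k : ι // k ≠ i ∧ k ≠ j}) (w z : W),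
    R.F k l w z = P.F k l w z
      - (P.F i k u w * P.F j l v z - P.F i l u z * P.F j k v w) / P.F i j u v

/-- RNK. `A` is the sum of the matrix `(A i k * A j l - A i l * A j k) / A i j` (all `k, l`), of
rank `≤ 2`, and of the matrix on the right extended by zero. -/
def SpecRNK : Prop := ∀ {ι : Type} [Fintype ι] [DecidableEq ι] (A : Matrix ι ι ℂ) (i j : ι),
  i ≠ j → (∀ k l, A l k = - A k l) → A i j ≠ 0 →
  A.rank ≤ 2 + (Matrix.of (fun k l : {k : ι // k ≠ i ∧ k ≠ j} =>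
    A k l - (A i k * A j l - A i l * A j k) / A i j)).rank

/-- TOP. Take a sequence in `D` converging to `y`, scale the vectors of the extensions outside
`I` to norm one (the rank does not change), take a convergent subsequence; the rank is lower
semicontinuous. -/
def SpecTOP : Prop := ∀ {ι : Type} [Fintype ι] [DecidableEq ι] (P : PS ι) (I : Finset ι) (s : ℕ)
  (D : Set (ι → W)), Dense D →
  (∀ y ∈ D, (∀ i, y i ≠ 0) →
    ∃ u : ι → W, (∀ i, u i ≠ 0) ∧ (∀ i ∈ I, u i = y i) ∧ (P.M u).rank ≤ s) →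
  ∀ y : ι → W, (∀ i, y i ≠ 0) →
    ∃ u : ι → W, (∀ i, u i ≠ 0) ∧ (∀ i ∈ I, u i = y i) ∧ (P.M u).rank ≤ s

/-- DEN. -/
def SpecDEN : Prop := ∀ {ι : Type} [Finite ι] (B : Set (Option ℂ)), B.Countable →
  Dense {y : ι → W | ∀ i, ∃ t x : ℂ, t ≠ 0 ∧ some x ∉ B ∧ y i = t • pt (some x)}

/-- OPN. The complement of the zero set of a nonzero polynomial function is dense. -/
def SpecOPN : Prop := ∀ {ι : Type} [Finite ι] (P : PS ι) (i j : ι), i ≠ j →
  (∃ u v, P.F i j u v ≠ 0) → Dense {y : ι → W | P.F i j (y i) (y j) ≠ 0}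

/-- IND. Induction on `m`. If `F i j u v ≠ 0` for some distinct `i, j ∈ I` and some `u, v`: for `y`
with `F i j (y i) (y j) ≠ 0` (dense by OPN) use RED, the induction hypothesis for `I` without
`i, j`, and RNK; then TOP. If all `F i j` vanish for `i, j ∈ I`: BAD, ZER and DEN, TOP. -/
def SpecIND : Prop := ∀ (m : ℕ) {ι : Type} [Fintype ι] [DecidableEq ι] (P : PS ι) (I : Finset ι),
  I.card = 2 * m + 1 → ∀ y : ι → W, (∀ i, y i ≠ 0) →
    ∃ u : ι → W, (∀ i, u i ≠ 0) ∧ (∀ i ∈ I, u i = y i) ∧ (P.M u).rank ≤ 2 * m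

end Pool.Agent.Lib.MPc9b009
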