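import Pool.Agent.Lib.MP_c9b009_ag.Spec
import Pool.Agent.Lib.MP_c9b009_ag.Poisson

/-!
# MP_c9b009_ag: Poisson structures on `(ℙ¹)ⁿ` and their degeneracy loci, final statement
-/

namespace Pool.Agent.Lib.MPc9b009

open MvPolynomial
open scoped LinearAlgebra.Projectivization

/-- The degeneracy locus `X_{≤ s}`: the points of `(ℙ¹)ⁿ` at which `τ` has rank at most `s`. -/
def Poisson.locus {n : ℕ} (τ : Poisson n) (s : ℕ) : Set (Fin n → ℙ ℂ (Fin 2 → ℂ)) :=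
  {x | (τ.mat fun i => (x i).rep).rank ≤ s}

/-- CONV. `P.c i j a b = coeff (single i a + single j b) (g i j)` for `i ≠ j`, `0` for `i = j`. -/
def SpecCONV : Prop := ∀ {n : ℕ} (τ : Poisson n), ∃ P : PS (Fin n),
  ∀ u : Fin n → W, P.M u = τ.mat u

/-- The final statement: Bondal's conjecture for `(ℙ¹)ⁿ`. -/
def Statement : Prop := ∀ (n : ℕ) (τ : Poisson n) (s : ℕ), Even s → s < n →
  ∀ I : Finset (Fin n), I.card = s + 1 → ∀ y : Fin n → ℙ ℂ (Fin 2 → ℂ),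
    ∃ x ∈ τ.locus s, ∀ i ∈ I, x i = y i

end Pool.Agent.Lib.MPc9b009
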